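import Pool.Agent.TH144.AE.Core6
import Pool.Agent.TH480.J852

/-! The conics of the variety and their images under morphisms. -/

set_option autoImplicit false

open Finset Filter Topology MvPolynomial

namespace Pool.Agent.TH144.AE

/-- the coordinates of the points of a conic as polynomials -/
noncomputable def PsiS (b c : Fin 3 → ℂ) : Fin 4 → MvPolynomial (Fin 2) ℂ :=
  ![C (b 0 * c 0) * X 0, C (b 0 * c 0) * X 1 + C (b 0 * c 1 + b 1 * c 0) * X 0,
    C (b 0 * c 1 + b 1 * c 0) * X 1 + C (b 1 * c 1) * X 0, C (b 1 * c 1) * X 1]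

lemma eval_PsiS (b c : Fin 3 → ℂ) (s : Fin 2 → ℂ) (i : Fin 4) :
    eval s (PsiS b c i) = Psi b c s i := by
  fin_cases i <;> simp [PsiS, Psi] <;> ring

lemma PsiS_hom (b c : Fin 3 → ℂ) (i : Fin 4) : (PsiS b c i).IsHomogeneous 1 := by
  fin_cases i
  · exact isHomogeneous_C_mul_X _ _
  · exact (isHomogeneous_C_mul_X _ _).add (isHomogeneous_C_mul_X _ _)
  · exact (isHomogeneous_C_mul_X _ _).add (isHomogeneous_C_mul_X _ _)
  · exact isHomogeneous_C_mul_X _ _

/-- the coordinates of the points of a conic as polynomials -/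
noncomputable def PhiS (b c : Fin 3 → ℂ) : Idx → MvPolynomial (Fin 2) ℂ :=
  Sum.elim (fun p => PsiS b c p.1 * PsiS b c p.2)
    fun p => C (lam b * lam c * b p.1 * c p.2.1) * (X p.2.2.1 * X p.2.2.2)

lemma eval_PhiS (b c : Fin 3 → ℂ) (s : Fin 2 → ℂ) (i : Idx) :
    eval s (PhiS b c i) = Phi b c s i := by
  rcases i with p | p
  · simp [PhiS, Phi, eval_PsiS]
  · simp [PhiS, Phi]
    ring

lemma PhiS_hom (b c : Fin 3 → ℂ) (i : Idx) : (PhiS b c i).IsHomogeneous 2 := by
  rcases i with p | p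
  · exact (PsiS_hom b c p.1).mul (PsiS_hom b c p.2)
  · exact ((isHomogeneous_X ℂ p.2.2.1).mul (isHomogeneous_X ℂ p.2.2.2)).C_mul _

lemma evalT_aeval {κ : Type} (G : κ → MvPolynomial Idx ℂ) (b c : Fin 3 → ℂ) (s : Fin 2 → ℂ) :
    evalT s (fun k => aeval (PhiS b c) (G k)) = evalT (Phi b c s) G := by
  funext k
  unfold evalT
  rw [aeval_eq_bind₁, hom_bind₁]
  simp only [eval_PhiS]
  have h : ((eval s).comp C : ℂ →+* ℂ) = RingHom.id ℂ := by
    ext x
    simp
  rw [h]
  rfl

/-- the point of the variety with given parameters -/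
noncomputable def pt {b c : Fin 3 → ℂ} (hb : b ∈ Cone) (hc : c ∈ Cone) {s : Fin 2 → ℂ}
    (hs : s ≠ 0) : PS Idx := Projectivization.mk ℂ (Phi b c s) (Phi_ne_zero hb hc hs)

lemma pt_coord {b c : Fin 3 → ℂ} (hb : b ∈ Cone) (hc : c ∈ Cone) {s : Fin 2 → ℂ}
    (hs : s ≠ 0) : IsCoord (pt hb hc hs) (Phi b c s) := ⟨_, rfl⟩

lemma pt_mem {b c : Fin 3 → ℂ} (hb : b ∈ Cone) (hc : c ∈ Cone) {s : Fin 2 → ℂ}
    (hs : s ≠ 0) : pt hb hc hs ∈ XX := ⟨b, hb, c, hc, s, hs, pt_coord hb hc hs⟩

/-- A morphism is given by global forms on every conic. -/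
theorem exists_form {κ : Type} [Finite κ] {f : PS Idx → PS κ} (hf : IsMorphism XX f)
    {b c : Fin 3 → ℂ} (hb : b ∈ Cone) (hc : c ∈ Cone) :
    ∃ (α : ℕ) (F : ℕ → κ → ℂ), ∀ s : Fin 2 → ℂ, s ≠ 0 → ∀ x, IsCoord x (Phi b c s) →
      IsCoord (f x) (form α F (s 0) (s 1)) := by
  classical
  have h1 : (![1, 0] : Fin 2 → ℂ) ≠ 0 := fun h => one_ne_zero (congrFun h 0)
  obtain ⟨α, F, hF⟩ := Pool.Agent.TH480.J852.global_form
    (fun s => if hs : s ≠ 0 then f (pt hb hc hs) else f (pt hb hc h1)) (by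
      intro s hs
      obtain ⟨d, G, hG, h0, h2⟩ := hf _ (pt_mem hb hc hs)
      refine ⟨2 * d, fun k => aeval (PhiS b c) (G k), fun k => (hG k).aeval _ (PhiS_hom b c), ?_, ?_⟩
      · rw [evalT_aeval]
        exact h0 _ (pt_coord hb hc hs)
      · intro s' hs' h3
        rw [evalT_aeval] at h3 ⊢
        rw [dif_pos hs']
        exact h2 _ (pt_mem hb hc hs') _ (pt_coord hb hc hs') h3)
  refine ⟨α, F, fun s hs x hx => ?_⟩
  have h2 := hF s hs
  rw [dif_pos hs] at h2
  rw [hx.eq (pt_coord hb hc hs)]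
  exact h2

/-- the coordinates are injective on the conic -/
lemma Phi_inj_s {b c : Fin 3 → ℂ} (hb : b ∈ Cone) (hc : c ∈ Cone) {s s' : Fin 2 → ℂ}
    (hs : s ≠ 0) {a : ℂ} (h : Phi b c s' = a • Phi b c s) : s 0 * s' 1 = s' 0 * s 1 := by
  have hP := Psi_ne_zero (cone_pair hb) (cone_pair hc) hs
  obtain ⟨i, hi⟩ : ∃ i, Psi b c s i ≠ 0 := by
    by_contra hc
    push Not at hc
    exact hP (funext hc)
  -- the vectors `Psi` are parallel
  have h1 : ∀ j k, Psi b c s' j * Psi b c s' k = a * (Psi b c s j * Psi b c s k) := by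
    intro j k
    have := congrFun h (Sum.inl (j, k))
    simpa [Phi] using this
  have h2 : ∀ j, Psi b c s' j * Psi b c s i = Psi b c s' i * Psi b c s j := by
    intro j
    have e1 := h1 j i
    have e2 := h1 i i
    by_cases ha : Psi b c s' i = 0
    · have e3 : a = 0 := by
        rw [ha, mul_zero] at e2
        rcases mul_eq_zero.1 e2.symm with h | h
        · exact h
        · exact absurd h (mul_ne_zero hi hi)
      have e4 := h1 j j
      rw [e3, zero_mul] at e4
      rw [mul_self_eq_zero.1 e4, ha, zero_mul, zero_mul]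
    · have e5 : Psi b c s' i * (Psi b c s' j * Psi b c s i - Psi b c s' i * Psi b c s j) *
          Psi b c s i = 0 := by
        linear_combination Psi b c s i * Psi b c s i * e1 - Psi b c s i * Psi b c s j * e2
      rcases mul_eq_zero.1 e5 with h | h
      · rcases mul_eq_zero.1 h with h | h
        · exact absurd h ha
        · exact sub_eq_zero.1 h
      · exact absurd h hi
  -- linearity of `Psi` in `s`
  have h3 : Psi b c ![s' 0 * Psi b c s i - Psi b c s' i * s 0,
      s' 1 * Psi b c s i - Psi b c s' i * s 1] = 0 := by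
    have hl : ∀ j, Psi b c ![s' 0 * Psi b c s i - Psi b c s' i * s 0,
        s' 1 * Psi b c s i - Psi b c s' i * s 1] j =
        Psi b c s' j * Psi b c s i - Psi b c s' i * Psi b c s j := by
      intro j
      generalize Psi b c s i = p
      generalize Psi b c s' i = q
      fin_cases j <;> simp [Psi] <;> ring
    funext j
    rw [hl j, h2 j, sub_self]
    rfl
  have h4 : (![s' 0 * Psi b c s i - Psi b c s' i * s 0,
      s' 1 * Psi b c s i - Psi b c s' i * s 1] : Fin 2 → ℂ) = 0 := by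
    by_contra hne
    exact Psi_ne_zero (cone_pair hb) (cone_pair hc) hne h3
  have h5 : s' 0 * Psi b c s i - Psi b c s' i * s 0 = 0 := congrFun h4 0
  have h6 : s' 1 * Psi b c s i - Psi b c s' i * s 1 = 0 := congrFun h4 1
  have h7 : (s 0 * s' 1 - s' 0 * s 1) * Psi b c s i = 0 := by
    linear_combination s 0 * h6 - s 1 * h5
  rcases mul_eq_zero.1 h7 with h | h
  · exact sub_eq_zero.1 h
  · exact absurd h hi

end Pool.Agent.TH144.AE
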