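import Pool.Agent.TH144.AE.ImmC
import Pool.Agent.TH159.J1083
import Pool.Agent.TH480.J851

/-! The variety is strongly approximately elliptically connected. -/

set_option autoImplicit false

open Finset Filter Topology MvPolynomial

namespace Pool.Agent.TH144.AE

/-- The data of the conic with parameters `b, c`. -/
theorem exists_data {m n : ℕ} {j : PS Idx → PS (Fin m) × PS (Fin n)} (hj : IsEmbedding XX j)
    (hdim : 5 ≤ m + n ∧ ((∀ x ∈ XX, ∀ y ∈ XX, (j x).1 = (j y).1) → 4 ≤ n) ∧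
      ((∀ x ∈ XX, ∀ y ∈ XX, (j x).2 = (j y).2) → 4 ≤ m))
    {b c : Fin 3 → ℂ} (hb : b ∈ Cone) (hc : c ∈ Cone) {U : Set (PS (Fin m) × PS (Fin n))}
    (hU : IsOpenSet U) (hsub : j '' XX ⊆ U) :
    ∃ (α β : ℕ) (f : ℕ → Fin m → ℂ) (g : ℕ → Fin n → ℂ) (k : ℕ → Fin m → ℂ) (l : ℕ → Fin n → ℂ),
      Data α β f g k l U ∧ (∀ s : Fin 2 → ℂ, s ≠ 0 → ∀ x, IsCoord x (Phi b c s) →
        IsCoord (j x).1 (form α f (s 0) (s 1)) ∧ IsCoord (j x).2 (form β g (s 0) (s 1))) ∧
      (α = 0 → ∀ x ∈ XX, ∀ y ∈ XX, (j x).1 = (j y).1) ∧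
      (β = 0 → ∀ x ∈ XX, ∀ y ∈ XX, (j x).2 = (j y).2) := by
  obtain ⟨α, f, hf⟩ := exists_form hj.1 hb hc
  obtain ⟨β, g, hg⟩ := exists_form hj.2.1 hb hc
  have hvec : ∀ s t : ℂ, s ≠ 0 ∨ t ≠ 0 → (![s, t] : Fin 2 → ℂ) ≠ 0 := by
    intro s t h h0
    have e1 : s = 0 := congrFun h0 0
    have e2 : t = 0 := congrFun h0 1
    rcases h with h | h
    · exact h e1
    · exact h e2
  have hf' : ∀ s t : ℂ, ∀ h : s ≠ 0 ∨ t ≠ 0, IsCoord (j (pt hb hc (hvec s t h))).1 (form α f s t) :=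
    fun s t h => hf ![s, t] (hvec s t h) _ (pt_coord hb hc (hvec s t h))
  have hg' : ∀ s t : ℂ, ∀ h : s ≠ 0 ∨ t ≠ 0, IsCoord (j (pt hb hc (hvec s t h))).2 (form β g s t) :=
    fun s t h => hg ![s, t] (hvec s t h) _ (pt_coord hb hc (hvec s t h))
  have hne : ∀ (u : Fin 2 → ℂ), u 0 ≠ 0 ∨ u 1 ≠ 0 → u ≠ 0 := by
    intro u h h0
    rw [h0] at h
    simp at h
  -- immersions
  have hI : Imm α β f g := by
    refine imm_conic hj hb hc (u := ![1, 0]) (v := ![0, 1]) ?_ ?_ ?_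
    · intro a e h
      have e1 : a = 0 := by simpa using congrFun h 0
      have e2 : e = 0 := by simpa using congrFun h 1
      exact ⟨e1, e2⟩
    · intro t x hx
      have e1 : (![1, 0] + t • ![0, 1] : Fin 2 → ℂ) 0 = 1 := by simp
      have e2 : (![1, 0] + t • ![0, 1] : Fin 2 → ℂ) 1 = t := by simp
      have := hf _ (hne _ (Or.inl (by rw [e1]; exact one_ne_zero))) x hx
      rwa [e1, e2] at this
    · intro t x hx
      have e1 : (![1, 0] + t • ![0, 1] : Fin 2 → ℂ) 0 = 1 := by simp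
      have e2 : (![1, 0] + t • ![0, 1] : Fin 2 → ℂ) 1 = t := by simp
      have := hg _ (hne _ (Or.inl (by rw [e1]; exact one_ne_zero))) x hx
      rwa [e1, e2] at this
  have hI' : Imm α β (rev α f) (rev β g) := by
    refine imm_conic hj hb hc (u := ![0, 1]) (v := ![1, 0]) ?_ ?_ ?_
    · intro a e h
      have e1 : a = 0 := by simpa using congrFun h 1
      have e2 : e = 0 := by simpa using congrFun h 0
      exact ⟨e1, e2⟩
    · intro t x hx
      have e1 : (![0, 1] + t • ![1, 0] : Fin 2 → ℂ) 0 = t := by simp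
      have e2 : (![0, 1] + t • ![1, 0] : Fin 2 → ℂ) 1 = 1 := by simp
      have := hf _ (hne _ (Or.inr (by rw [e2]; exact one_ne_zero))) x hx
      rwa [e1, e2, form_swap] at this
    · intro t x hx
      have e1 : (![0, 1] + t • ![1, 0] : Fin 2 → ℂ) 0 = t := by simp
      have e2 : (![0, 1] + t • ![1, 0] : Fin 2 → ℂ) 1 = 1 := by simp
      have := hg _ (hne _ (Or.inr (by rw [e2]; exact one_ne_zero))) x hx
      rwa [e1, e2, form_swap] at this
  -- constant components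
  have hs0 : ∀ (x : PS Idx) (s : Fin 2 → ℂ), IsCoord x (Phi b c s) → s ≠ 0 := by
    intro x s hx h0
    apply hx.ne_zero
    rw [h0]
    funext i
    rcases i with p | p
    · have : ∀ q : Fin 4, Psi b c 0 q = 0 := by
        intro q
        fin_cases q <;> simp [Psi]
      simp [Phi, this]
    · simp [Phi]
  have hc1 : α = 0 → ∀ x ∈ XX, ∀ y ∈ XX, (j x).1 = (j y).1 := by
    intro h0
    refine Pool.Agent.TH159.J1083.morphism_const hj.1 hb hc ?_
    intro x hx y hy s t hxs hyt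
    have h1 := hf s (hs0 x s hxs) x hxs
    have h2 := hf t (hs0 y t hyt) y hyt
    have h3 : ∀ s t : ℂ, form α f s t = f 0 := by
      intro s t
      rw [h0]
      simp [form]
    rw [h3] at h1 h2
    exact h1.eq h2
  have hc2 : β = 0 → ∀ x ∈ XX, ∀ y ∈ XX, (j x).2 = (j y).2 := by
    intro h0
    refine Pool.Agent.TH159.J1083.morphism_const hj.2.1 hb hc ?_
    intro x hx y hy s t hxs hyt
    have h1 := hg s (hs0 x s hxs) x hxs
    have h2 := hg t (hs0 y t hyt) y hyt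
    have h3 : ∀ s t : ℂ, form β g s t = g 0 := by
      intro s t
      rw [h0]
      simp [form]
    rw [h3] at h1 h2
    exact h1.eq h2
  obtain ⟨k, l, hT, hT'⟩ := Pool.Agent.TH480.J851.exists_trans α β f g hI hI' hdim.1
    (fun h => hdim.2.1 (hc1 h)) (fun h => hdim.2.2 (hc2 h))
  refine ⟨α, β, f, g, k, l, ⟨?_, ?_, ?_, hT, hT', hU, ?_⟩, ?_, hc1, hc2⟩
  · intro s t h
    exact (hf' s t h).ne_zero
  · intro s t h
    exact (hg' s t h).ne_zero
  · rintro s t s' t' h h' ⟨a, ha⟩ ⟨e, he⟩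
    have e1 := (hf' s t h).eq_of_smul (hf' s' t' h') ha
    have e2 := (hg' s t h).eq_of_smul (hg' s' t' h') he
    have e3 := hj.2.2.1 (pt_mem hb hc (hvec s t h)) (pt_mem hb hc (hvec s' t' h'))
      (Prod.ext e1 e2)
    have e4 := pt_coord hb hc (hvec s' t' h')
    rw [← e3] at e4
    obtain ⟨r, _, hr⟩ := (pt_coord hb hc (hvec s t h)).exists_smul e4
    have e5 := Phi_inj_s hb hc (hvec s t h) hr
    simpa using e5
  · intro p s t h h1 h2
    apply hsub
    exact ⟨pt hb hc (hvec s t h), pt_mem hb hc _, Prod.ext ((hf' s t h).eq h1) ((hg' s t h).eq h2)⟩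
  · intro s hs x hx
    exact ⟨hf s hs x hx, hg s hs x hx⟩

end Pool.Agent.TH144.AE
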