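import Pool.Agent.TH144.AE.Conn

/-! Chains of elliptic curves. -/

set_option autoImplicit false

open Finset Filter Topology MvPolynomial

namespace Pool.Agent.TH144.AE

variable {κ μ : Type}

/-- two points lie on an elliptic curve in `U` -/
def Rel (U : Set (PS κ × PS μ)) (p q : PS κ × PS μ) : Prop :=
  ∃ Γ : Set (PS κ × PS μ), IsEllipticCurve Γ ∧ Γ ⊆ U ∧ p ∈ Γ ∧ q ∈ Γ

lemma Rel.symm {U : Set (PS κ × PS μ)} {p q : PS κ × PS μ} (h : Rel U p q) : Rel U q p := by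
  obtain ⟨Γ, h1, h2, h3, h4⟩ := h
  exact ⟨Γ, h1, h2, h4, h3⟩

lemma transGen_symm {U : Set (PS κ × PS μ)} {p q : PS κ × PS μ}
    (h : Relation.TransGen (Rel U) p q) : Relation.TransGen (Rel U) q p := by
  induction h with
  | single h => exact Relation.TransGen.single h.symm
  | tail _ h ih => exact (Relation.TransGen.single h.symm).trans ih

lemma chainIn_of_transGen {U : Set (PS κ × PS μ)} {p q : PS κ × PS μ}
    (h : Relation.TransGen (Rel U) p q) : ChainIn U p q := by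
  induction h with
  | single h =>
    obtain ⟨Γ, h1, h2, h3, h4⟩ := h
    exact ⟨0, fun _ => Γ, fun _ => ⟨h1, h2⟩, h3, h4, fun i => i.elim0⟩
  | @tail q r _ h ih =>
    obtain ⟨Γ', h1, h2, h3, h4⟩ := h
    obtain ⟨n, Γ, g1, g2, g3, g4⟩ := ih
    refine ⟨n + 1, (Fin.snoc Γ Γ' : Fin (n + 1 + 1) → Set (PS κ × PS μ)), ?_, ?_, ?_, ?_⟩
    · intro i
      refine Fin.lastCases ?_ (fun i => ?_) i
      · rw [Fin.snoc_last]
        exact ⟨h1, h2⟩
      · rw [Fin.snoc_castSucc]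
        exact g1 i
    · have e : (0 : Fin (n + 1 + 1)) = Fin.castSucc (0 : Fin (n + 1)) := rfl
      rw [e, Fin.snoc_castSucc]
      exact g2
    · rw [Fin.snoc_last]
      exact h4
    · intro i
      refine Fin.lastCases ?_ (fun i => ?_) i
      · rw [Fin.snoc_castSucc, Fin.succ_last, Fin.snoc_last]
        exact ⟨q, g3, h3⟩
      · rw [Fin.snoc_castSucc, Fin.succ_castSucc, Fin.snoc_castSucc]
        exact g4 i

lemma continuous_Psi (s : Fin 2 → ℂ) (i : Fin 4) :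
    Continuous fun y : (Fin 3 → ℂ) × (Fin 3 → ℂ) => Psi y.1 y.2 s i := by
  fin_cases i <;> simp [Psi] <;> fun_prop

lemma continuous_Phi (s : Fin 2 → ℂ) :
    Continuous fun y : (Fin 3 → ℂ) × (Fin 3 → ℂ) => Phi y.1 y.2 s := by
  refine continuous_pi fun i => ?_
  rcases i with p | p
  · exact (continuous_Psi s p.1).mul (continuous_Psi s p.2)
  · simp only [Phi, Sum.elim_inr, lam]
    fun_prop

lemma vec01_ne : (![0, 1] : Fin 2 → ℂ) ≠ 0 := fun h => one_ne_zero (congrFun h 1)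

lemma vec10_ne : (![1, 0] : Fin 2 → ℂ) ≠ 0 := fun h => one_ne_zero (congrFun h 0)

/-- Local lifts of a morphism near a point of a conic as small perturbations of the form. -/
lemma exists_delta {φ : PS Idx → PS κ} (hφ : IsMorphism XX φ) {b c : Fin 3 → ℂ}
    (hb : b ∈ Cone) (hc : c ∈ Cone) {α : ℕ} {f : ℕ → κ → ℂ}
    (hf : ∀ s : Fin 2 → ℂ, s ≠ 0 → ∀ x, IsCoord x (Phi b c s) →
      IsCoord (φ x) (form α f (s 0) (s 1)))
    (hconst : α = 0 → ∀ x ∈ XX, ∀ y ∈ XX, φ x = φ y) :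
    ∃ δ : (Fin 3 → ℂ) × (Fin 3 → ℂ) → κ → ℂ, Tendsto δ (𝓝 (b, c)) (𝓝 0) ∧
      (α = 0 → ∀ y, δ y = 0) ∧
      ∀ᶠ y in 𝓝 (b, c), y.1 ∈ Cone → y.2 ∈ Cone → ∀ x, IsCoord x (Phi y.1 y.2 ![0, 1]) →
        IsCoord (φ x) (form α f 0 1 + δ y) := by
  have h1 := hf ![0, 1] vec01_ne _ (pt_coord hb hc vec01_ne)
  by_cases hα : α = 0
  · refine ⟨fun _ => 0, tendsto_const_nhds, fun _ _ => rfl, Eventually.of_forall ?_⟩
    intro y hy1 hy2 x hx
    rw [add_zero, hconst hα x ⟨y.1, hy1, y.2, hy2, _, vec01_ne, hx⟩ _ (pt_mem hb hc vec01_ne)]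
    exact h1
  · obtain ⟨d, G, _, hG0, hG⟩ := hφ _ (pt_mem hb hc vec01_ne)
    have h2 := hG0 _ (pt_coord hb hc vec01_ne)
    have h3 := hG _ (pt_mem hb hc vec01_ne) _ (pt_coord hb hc vec01_ne) h2
    obtain ⟨a, ha, he⟩ := h3.exists_smul h1
    have hcont : Continuous fun y : (Fin 3 → ℂ) × (Fin 3 → ℂ) =>
        evalT (Phi y.1 y.2 ![0, 1]) G := by
      refine continuous_pi fun k => ?_
      exact (MvPolynomial.continuous_eval (G k)).comp (continuous_Phi ![0, 1])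
    refine ⟨fun y => a • evalT (Phi y.1 y.2 ![0, 1]) G - form α f 0 1, ?_, fun h => absurd h hα, ?_⟩
    · have h4 : Continuous fun y : (Fin 3 → ℂ) × (Fin 3 → ℂ) =>
          a • evalT (Phi y.1 y.2 ![0, 1]) G - form α f 0 1 :=
        (hcont.const_smul a).sub continuous_const
      have h5 := h4.tendsto (b, c)
      have h6 : a • evalT (Phi (b, c).1 (b, c).2 ![0, 1]) G - form α f 0 1 = 0 := by
        rw [sub_eq_zero]
        exact he.symm
      rw [h6] at h5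
      exact h5
    · have h4 := hcont.continuousAt.eventually_ne (x := (b, c)) h2
      filter_upwards [h4] with y hy hy1 hy2 x hx
      have h5 := hG x ⟨y.1, hy1, y.2, hy2, _, vec01_ne, hx⟩ _ hx hy
      have h6 := h5.smul ha
      rwa [add_sub_cancel]

section

variable {m n : ℕ} {j : PS Idx → PS (Fin m) × PS (Fin n)}

lemma rel_same (hj : IsEmbedding XX j)
    (hdim : 5 ≤ m + n ∧ ((∀ x ∈ XX, ∀ y ∈ XX, (j x).1 = (j y).1) → 4 ≤ n) ∧
      ((∀ x ∈ XX, ∀ y ∈ XX, (j x).2 = (j y).2) → 4 ≤ m))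
    {U : Set (PS (Fin m) × PS (Fin n))} (hU : IsOpenSet U) (hsub : j '' XX ⊆ U)
    {b c : Fin 3 → ℂ} (hb : b ∈ Cone) (hc : c ∈ Cone) {x x' : PS Idx}
    (hx : IsCoord x (Phi b c ![1, 0])) {s : Fin 2 → ℂ} (hs : s 1 ≠ 0)
    (hx' : IsCoord x' (Phi b c s)) : Rel U (j x) (j x') := by
  obtain ⟨α, β, f, g, k, l, D, hfg, _, _⟩ := exists_data hj hdim hb hc hU hsub
  have hs0 : s ≠ 0 := fun h => hs (by rw [h]; rfl)
  have h1 := hfg _ vec10_ne x hx
  have h2 := hfg s hs0 x' hx'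
  exact D.same hs h1.1 h1.2 h2.1 h2.2

lemma rel_near (hj : IsEmbedding XX j)
    (hdim : 5 ≤ m + n ∧ ((∀ x ∈ XX, ∀ y ∈ XX, (j x).1 = (j y).1) → 4 ≤ n) ∧
      ((∀ x ∈ XX, ∀ y ∈ XX, (j x).2 = (j y).2) → 4 ≤ m))
    {U : Set (PS (Fin m) × PS (Fin n))} (hU : IsOpenSet U) (hsub : j '' XX ⊆ U)
    {b c : Fin 3 → ℂ} (hb : b ∈ Cone) (hc : c ∈ Cone) {x : PS Idx}
    (hx : IsCoord x (Phi b c ![1, 0])) :
    ∀ᶠ y in 𝓝 (b, c), y.1 ∈ Cone → y.2 ∈ Cone → ∀ x', IsCoord x' (Phi y.1 y.2 ![0, 1]) →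
      Rel U (j x) (j x') := by
  obtain ⟨α, β, f, g, k, l, D, hfg, hα, hβ⟩ := exists_data hj hdim hb hc hU hsub
  obtain ⟨δ, h1, h2, h3⟩ := exists_delta hj.1 hb hc (fun s hs x hx => (hfg s hs x hx).1) hα
  obtain ⟨ε, k1, k2, k3⟩ := exists_delta hj.2.1 hb hc (fun s hs x hx => (hfg s hs x hx).2) hβ
  have h4 := hfg _ vec10_ne x hx
  have h5 := D.near h4.1 h4.2
  have h6 : Tendsto (fun y => (δ y, ε y)) (𝓝 (b, c)) (𝓝 0) := h1.prodMk_nhds k1
  filter_upwards [h6.eventually h5, h3, k3] with y e1 e2 e3 hy1 hy2 x' hx'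
  exact e1 (fun h => h2 h y) (fun h => k2 h y) (j x') (e2 hy1 hy2 x' hx') (e3 hy1 hy2 x' hx')

lemma base_conn (hj : IsEmbedding XX j)
    (hdim : 5 ≤ m + n ∧ ((∀ x ∈ XX, ∀ y ∈ XX, (j x).1 = (j y).1) → 4 ≤ n) ∧
      ((∀ x ∈ XX, ∀ y ∈ XX, (j x).2 = (j y).2) → 4 ≤ m))
    {U : Set (PS (Fin m) × PS (Fin n))} (hU : IsOpenSet U) (hsub : j '' XX ⊆ U)
    {b c : Fin 3 → ℂ} (hb : b ∈ Cone) (hc : c ∈ Cone) {x x' : PS Idx}
    (hx : IsCoord x (Phi b c ![1, 0])) {s : Fin 2 → ℂ} (hx' : IsCoord x' (Phi b c s)) :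
    Relation.TransGen (Rel U) (j x) (j x') := by
  by_cases hs : s 1 = 0
  · have h1 : s = s 0 • ![1, 0] := by
      funext i
      fin_cases i
      · simp
      · simpa using hs
    have h2 : Phi b c s = (s 0 * s 0) • Phi b c ![1, 0] := by
      rw [h1]
      have e : ∀ q, Psi b c (s 0 • ![1, 0]) q = s 0 * Psi b c ![1, 0] q := by
        intro q
        fin_cases q <;> simp [Psi] <;> ring
      funext i
      rcases i with p | p
      · simp only [Phi, Sum.elim_inl, Pi.smul_apply, smul_eq_mul, e]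
        simp
        ring
      · simp only [Phi, Sum.elim_inr, Pi.smul_apply, smul_eq_mul]
        simp
        ring
    have h3 : x = x' := hx.eq_of_smul hx' h2
    rw [← h3]
    have h4 := rel_same hj hdim hU hsub hb hc hx (s := ![0, 1]) (by simp)
      (pt_coord hb hc vec01_ne)
    exact (Relation.TransGen.single h4).tail h4.symm
  · exact Relation.TransGen.single (rel_same hj hdim hU hsub hb hc hx hs hx')

/-- Chains of elliptic curves join any two points of the image of the variety. -/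
theorem naively (hj : IsEmbedding XX j)
    (hdim : 5 ≤ m + n ∧ ((∀ x ∈ XX, ∀ y ∈ XX, (j x).1 = (j y).1) → 4 ≤ n) ∧
      ((∀ x ∈ XX, ∀ y ∈ XX, (j x).2 = (j y).2) → 4 ≤ m)) : NaivelyConnected (j '' XX) := by
  rintro U hU hsub p ⟨x, ⟨b, hb, c, hc, s, hs, hx⟩, rfl⟩ q ⟨x', ⟨b', hb', c', hc', s', hs', hx'⟩, rfl⟩
  apply chainIn_of_transGen
  have key : ∀ y y' : (Fin 3 → ℂ) × (Fin 3 → ℂ), y ∈ Cone ×ˢ Cone → y' ∈ Cone ×ˢ Cone →
      ∀ x x' : PS Idx, IsCoord x (Phi y.1 y.2 ![1, 0]) → IsCoord x' (Phi y'.1 y'.2 ![1, 0]) →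
        Relation.TransGen (Rel U) (j x) (j x') := by
    intro y y' hy hy'
    refine (cone_connected.isPreconnected.prod cone_connected.isPreconnected).induction₂
      (fun y y' => ∀ x x' : PS Idx, IsCoord x (Phi y.1 y.2 ![1, 0]) →
        IsCoord x' (Phi y'.1 y'.2 ![1, 0]) → Relation.TransGen (Rel U) (j x) (j x'))
      ?_ ?_ ?_ hy hy'
    · intro y hy
      have h1 := rel_near hj hdim hU hsub hy.1 hy.2 (pt_coord hy.1 hy.2 vec10_ne)
      have h2 : ∀ᶠ y' in 𝓝[Cone ×ˢ Cone] y, y'.1 ∈ Cone → y'.2 ∈ Cone → ∀ x',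
          IsCoord x' (Phi y'.1 y'.2 ![0, 1]) → Rel U (j (pt hy.1 hy.2 vec10_ne)) (j x') :=
        nhdsWithin_le_nhds h1
      filter_upwards [h2, self_mem_nhdsWithin] with y' h3 hy' x x' hx hx'
      have e : x = pt hy.1 hy.2 vec10_ne := hx.eq (pt_coord hy.1 hy.2 vec10_ne)
      rw [e]
      have h4 := h3 hy'.1 hy'.2 _ (pt_coord hy'.1 hy'.2 vec01_ne)
      have h5 := base_conn hj hdim hU hsub hy'.1 hy'.2 hx' (pt_coord hy'.1 hy'.2 vec01_ne)
      exact (Relation.TransGen.single h4).trans (transGen_symm h5)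
    · intro y1 y2 y3 _ h2 _ h12 h23 x1 x3 hx1 hx3
      exact (h12 x1 _ hx1 (pt_coord h2.1 h2.2 vec10_ne)).trans
        (h23 _ x3 (pt_coord h2.1 h2.2 vec10_ne) hx3)
    · intro y1 y2 _ _ h12 x2 x1 hx2 hx1
      exact transGen_symm (h12 x1 x2 hx1 hx2)
  have h1 := base_conn hj hdim hU hsub hb hc (pt_coord hb hc vec10_ne) hx
  have h2 := base_conn hj hdim hU hsub hb' hc' (pt_coord hb' hc' vec10_ne) hx'
  have h3 := key (b, c) (b', c') ⟨hb, hc⟩ ⟨hb', hc'⟩ _ _ (pt_coord hb hc vec10_ne)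
    (pt_coord hb' hc' vec10_ne)
  exact ((transGen_symm h1).trans h3).trans h2

end

end Pool.Agent.TH144.AE
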