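import Pool.Agent.TH144.AE.Form

/-! Perturbing a triple cover of an immersed rational curve to an embedded cubic. -/

set_option autoImplicit false

open Finset Filter Topology

namespace Pool.Agent.TH144.AE

variable {κ μ : Type}

/-! ### homogeneity and divided differences -/

lemma form_smul (α : ℕ) (f : ℕ → κ → ℂ) (r s t : ℂ) :
    form α f (r * s) (r * t) = r ^ α • form α f s t := by
  unfold form
  rw [Finset.smul_sum]
  refine sum_congr rfl fun i hi => ?_
  have hi' : i ≤ α := by simpa [Nat.lt_succ_iff] using hi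
  rw [smul_smul]
  congr 1
  have : r ^ α = r ^ (α - i) * r ^ i := by rw [← pow_add]; congr 1; omega
  rw [this]
  ring

lemma formw_smul (α : ℕ) (f : ℕ → κ → ℂ) (r s t : ℂ) :
    r • formw α f (r * s) (r * t) = r ^ α • formw α f s t := by
  unfold formw
  split_ifs with h
  · simp
  · rw [form_smul, smul_smul, ← pow_succ', Nat.sub_add_cancel (Nat.one_le_iff_ne_zero.2 h)]

/-- the perturbed map on the cubic -/
def psi (α : ℕ) (k f : ℕ → κ → ℂ) (ε : ℂ) (z : Fin 3 → ℂ) : κ → ℂ :=
  form α f (z 0) (z 1) - (ε * z 2) • formw α k (z 0) (z 1)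

lemma psi_smul (α : ℕ) (k f : ℕ → κ → ℂ) (ε r : ℂ) (z : Fin 3 → ℂ) :
    psi α k f ε (r • z) = r ^ α • psi α k f ε z := by
  unfold psi
  simp only [Pi.smul_apply, smul_eq_mul]
  rw [form_smul, smul_sub, smul_smul]
  congr 1
  have h := formw_smul α k r (z 0) (z 1)
  calc (ε * (r * z 2)) • formw α k (r * z 0) (r * z 1)
      = (ε * z 2) • (r • formw α k (r * z 0) (r * z 1)) := by rw [smul_smul]; congr 1; ring
    _ = (ε * z 2) • (r ^ α • formw α k (z 0) (z 1)) := by rw [h]
    _ = _ := by rw [smul_smul]; congr 1; ring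

/-- exchange of the first two coordinates -/
def swp (z : Fin 3 → ℂ) : Fin 3 → ℂ := ![z 1, z 0, z 2]

lemma swp_swp (z : Fin 3 → ℂ) : swp (swp z) = z := by
  funext i
  fin_cases i <;> rfl

lemma psi_swp (α : ℕ) (k f : ℕ → κ → ℂ) (ε : ℂ) (z : Fin 3 → ℂ) :
    psi α k f ε z = psi α (rev (α - 1) k) (rev α f) ε (swp z) := by
  unfold psi swp
  simp only [Matrix.cons_val_zero, Matrix.cons_val_one, Matrix.cons_val]
  rw [form_swap α f, formw_swap α k]

/-- the divided difference of `t ↦ form α f 1 t` -/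
def dd (α : ℕ) (f : ℕ → κ → ℂ) (t t' : ℂ) : κ → ℂ :=
  ∑ i ∈ range (α + 1), (∑ j ∈ range i, t ^ j * t' ^ (i - 1 - j)) • f i

lemma form_sub (α : ℕ) (f : ℕ → κ → ℂ) (t t' : ℂ) :
    form α f 1 t - form α f 1 t' = (t - t') • dd α f t t' := by
  unfold form dd
  rw [← sum_sub_distrib, Finset.smul_sum]
  refine sum_congr rfl fun i _ => ?_
  rw [one_pow, one_mul, one_mul, ← sub_smul, smul_smul, mul_comm, Commute.geom_sum₂_mul]
  exact Commute.all _ _

lemma dd_self (α : ℕ) (f : ℕ → κ → ℂ) (t : ℂ) : dd α f t t = dform α f t := by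
  unfold dd dform
  refine sum_congr rfl fun i _ => ?_
  congr 1
  rw [geom_sum₂_self]

/-- the divided difference of `t ↦ formw α k 1 t` -/
def ddw (α : ℕ) (k : ℕ → κ → ℂ) (t t' : ℂ) : κ → ℂ :=
  if α = 0 then 0 else dd (α - 1) k t t'

lemma formw_sub (α : ℕ) (k : ℕ → κ → ℂ) (t t' : ℂ) :
    formw α k 1 t - formw α k 1 t' = (t - t') • ddw α k t t' := by
  unfold formw ddw
  split_ifs
  · simp
  · exact form_sub _ _ _ _

/-- difference of the values of the perturbed map -/
lemma psi_sub (α : ℕ) (k f : ℕ → κ → ℂ) (ε t w t' w' : ℂ) :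
    psi α k f ε ![1, t, w] - psi α k f ε ![1, t', w'] =
      (t - t') • (dd α f t t' - (ε * w') • ddw α k t t') - (ε * (w - w')) • formw α k 1 t := by
  unfold psi
  simp only [Matrix.cons_val_zero, Matrix.cons_val_one, Matrix.cons_val]
  have h1 := form_sub α f t t'
  have h2 := formw_sub α k t t'
  have h3 : form α f 1 t = form α f 1 t' + (t - t') • dd α f t t' := by rw [← h1]; abel
  have h4 : formw α k 1 t' = formw α k 1 t - (t - t') • ddw α k t t' := by rw [← h2]; abel
  rw [h3, h4]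
  module

/-! ### continuity -/

lemma Cont.form {T : Type*} [TopologicalSpace T] {f : T → ℕ → κ → ℂ} {s t : T → ℂ} (α : ℕ)
    (hf : Continuous f) (hs : Continuous s) (ht : Continuous t) :
    Continuous fun p => form α (f p) (s p) (t p) := by
  unfold AE.form
  refine continuous_finsetSum _ fun i _ => ?_
  exact ((hs.pow _).mul (ht.pow _)).smul ((continuous_apply i).comp hf)

lemma Cont.dd {T : Type*} [TopologicalSpace T] {f : T → ℕ → κ → ℂ} {s t : T → ℂ} (α : ℕ)
    (hf : Continuous f) (hs : Continuous s) (ht : Continuous t) :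
    Continuous fun p => dd α (f p) (s p) (t p) := by
  unfold AE.dd
  refine continuous_finsetSum _ fun i _ => ?_
  have h1 : Continuous fun p => ∑ j ∈ range i, s p ^ j * t p ^ (i - 1 - j) :=
    continuous_finsetSum _ fun j _ => (hs.pow _).mul (ht.pow _)
  exact h1.smul ((continuous_apply i).comp hf)

lemma Cont.formw {T : Type*} [TopologicalSpace T] {s t : T → ℂ} (α : ℕ) (k : ℕ → κ → ℂ)
    (hs : Continuous s) (ht : Continuous t) :
    Continuous fun p => formw α k (s p) (t p) := by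
  unfold AE.formw
  split_ifs
  · exact continuous_const
  · exact Cont.form _ continuous_const hs ht

lemma Cont.ddw {T : Type*} [TopologicalSpace T] {s t : T → ℂ} (α : ℕ) (k : ℕ → κ → ℂ)
    (hs : Continuous s) (ht : Continuous t) :
    Continuous fun p => ddw α k (s p) (t p) := by
  unfold AE.ddw
  split_ifs
  · exact continuous_const
  · exact Cont.dd _ continuous_const hs ht

lemma Cont.psi {T : Type*} [TopologicalSpace T] {f : T → ℕ → κ → ℂ} {ε : T → ℂ}
    {z : T → Fin 3 → ℂ} (α : ℕ) (k : ℕ → κ → ℂ) (hf : Continuous f) (hε : Continuous ε)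
    (hz : Continuous z) : Continuous fun p => psi α k (f p) (ε p) (z p) := by
  unfold AE.psi
  have h0 : Continuous fun p => z p 0 := (continuous_apply 0).comp hz
  have h1 : Continuous fun p => z p 1 := (continuous_apply 1).comp hz
  have h2 : Continuous fun p => z p 2 := (continuous_apply 2).comp hz
  exact (Cont.form α hf h0 h1).sub ((hε.mul h2).smul (Cont.formw α k h0 h1))

/-- the parameters of the perturbation -/
abbrev Par (κ μ : Type) : Type := (ℕ → κ → ℂ) × (ℕ → μ → ℂ) × ℂ

/-- the four vectors -/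
def vec (α β : ℕ) (k : ℕ → κ → ℂ) (l : ℕ → μ → ℂ) (q : Par κ μ) (t t' w' : ℂ) :
    Fin 4 → (κ → ℂ) × (μ → ℂ) :=
  ![(dd α q.1 t t' - (q.2.2 * w') • ddw α k t t', dd β q.2.1 t t' - (q.2.2 * w') • ddw β l t t'),
    (formw α k 1 t, formw β l 1 t),
    (psi α k q.1 q.2.2 ![1, t', w'], 0), (0, psi β l q.2.1 q.2.2 ![1, t', w'])]

lemma continuous_vec (α β : ℕ) (k : ℕ → κ → ℂ) (l : ℕ → μ → ℂ) :
    Continuous fun p : Par κ μ × ℂ × ℂ × ℂ => vec α β k l p.1 p.2.1 p.2.2.1 p.2.2.2 := by
  have c1 : Continuous fun p : Par κ μ × ℂ × ℂ × ℂ => p.1.1 := continuous_fst.comp continuous_fst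
  have c2 : Continuous fun p : Par κ μ × ℂ × ℂ × ℂ => p.1.2.1 :=
    continuous_fst.comp (continuous_snd.comp continuous_fst)
  have c3 : Continuous fun p : Par κ μ × ℂ × ℂ × ℂ => p.1.2.2 :=
    continuous_snd.comp (continuous_snd.comp continuous_fst)
  have d1 : Continuous fun p : Par κ μ × ℂ × ℂ × ℂ => p.2.1 :=
    continuous_fst.comp continuous_snd
  have d2 : Continuous fun p : Par κ μ × ℂ × ℂ × ℂ => p.2.2.1 :=
    continuous_fst.comp (continuous_snd.comp continuous_snd)
  have d3 : Continuous fun p : Par κ μ × ℂ × ℂ × ℂ => p.2.2.2 :=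
    continuous_snd.comp (continuous_snd.comp continuous_snd)
  have e0 : Continuous fun p : Par κ μ × ℂ × ℂ × ℂ => (![1, p.2.2.1, p.2.2.2] : Fin 3 → ℂ) := by
    refine continuous_pi fun i => ?_
    fin_cases i
    · exact continuous_const
    · exact d2
    · exact d3
  refine continuous_pi fun i => ?_
  fin_cases i
  · exact ((Cont.dd α c1 d1 d2).sub ((c3.mul d3).smul (Cont.ddw α k d1 d2))).prodMk
      ((Cont.dd β c2 d1 d2).sub ((c3.mul d3).smul (Cont.ddw β l d1 d2)))
  · exact (Cont.formw α k continuous_const d1).prodMk (Cont.formw β l continuous_const d1)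
  · exact (Cont.psi α k c1 c3 e0).prodMk continuous_const
  · exact continuous_const.prodMk (Cont.psi β l c2 c3 e0)

variable [Finite κ] [Finite μ]

omit [Finite κ] [Finite μ] in
lemma psi_zero (α : ℕ) (k f : ℕ → κ → ℂ) (t w : ℂ) : psi α k f 0 ![1, t, w] = form α f 1 t := by
  unfold psi
  rw [zero_mul, zero_smul, sub_zero]
  rfl

omit [Finite κ] [Finite μ] in
lemma vec_zero (α β : ℕ) (f : ℕ → κ → ℂ) (g : ℕ → μ → ℂ) (k : ℕ → κ → ℂ) (l : ℕ → μ → ℂ)
    (t w' : ℂ) : vec α β k l (f, g, 0) t t w' =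
      ![(dform α f t, dform β g t), (formw α k 1 t, formw β l 1 t),
        (form α f 1 t, 0), (0, form β g 1 t)] := by
  unfold vec
  rw [psi_zero, psi_zero, dd_self, dd_self]
  simp only [zero_mul, zero_smul, sub_zero]

/-- near the diagonal, the four vectors are independent -/
lemma vec_indep {α β : ℕ} {f : ℕ → κ → ℂ} {g : ℕ → μ → ℂ} {k : ℕ → κ → ℂ} {l : ℕ → μ → ℂ}
    (hT : Trans α β f g k l) (t w' : ℂ) :
    ∀ᶠ p : Par κ μ × ℂ × ℂ × ℂ in 𝓝 ((f, g, 0), t, t, w'),
      LinearIndependent ℂ (vec α β k l p.1 p.2.1 p.2.2.1 p.2.2.2) := by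
  have _ := Fintype.ofFinite κ
  have _ := Fintype.ofFinite μ
  have h0 : LinearIndependent ℂ (vec α β k l (f, g, 0) t t w') := by
    rw [vec_zero]
    exact hT t
  have hopen : IsOpen {v : Fin 4 → (κ → ℂ) × (μ → ℂ) | LinearIndependent ℂ v} :=
    isOpen_setOfPred_linearIndependent
  have hc := (continuous_vec α β k l).continuousAt (x := ((f, g, 0), t, t, w'))
  exact hc.eventually (hopen.mem_nhds h0)

end Pool.Agent.TH144.AE
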