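import Pool.Agent.TH144.AE.Core

/-! Perturbing a triple cover of an immersed rational curve to an embedded cubic, II. -/

set_option autoImplicit false

open Finset Filter Topology

namespace Pool.Agent.TH144.AE

variable {κ μ : Type}

/-- the cone over the Fermat cubic -/
def Ecub : Set (Fin 3 → ℂ) := {z | z ≠ 0 ∧ z 2 ^ 3 = z 0 ^ 3 + z 1 ^ 3}

lemma ecub_pair {z : Fin 3 → ℂ} (hz : z ∈ Ecub) : z 0 ≠ 0 ∨ z 1 ≠ 0 := by
  by_contra h
  push Not at h
  obtain ⟨h0, h1⟩ := h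
  apply hz.1
  have h2 := hz.2
  rw [h0, h1] at h2
  have h3 : z 2 = 0 := by
    have : z 2 ^ 3 = 0 := by linear_combination h2
    exact pow_eq_zero_iff (by norm_num) |>.1 this
  funext i
  fin_cases i
  · exact h0
  · exact h1
  · exact h3

lemma ecub_swp {z : Fin 3 → ℂ} (hz : z ∈ Ecub) : swp z ∈ Ecub := by
  refine ⟨fun h => hz.1 ?_, ?_⟩
  · rw [← swp_swp z, h]
    funext i
    fin_cases i <;> rfl
  · change z 2 ^ 3 = z 1 ^ 3 + z 0 ^ 3
    rw [hz.2]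
    ring

lemma ecub_smul {z : Fin 3 → ℂ} (hz : z ∈ Ecub) {r : ℂ} (hr : r ≠ 0) : r • z ∈ Ecub := by
  refine ⟨smul_ne_zero hr hz.1, ?_⟩
  simp only [Pi.smul_apply, smul_eq_mul, mul_pow]
  rw [hz.2]
  ring

/-- the affine representative -/
lemma aff_eq {z : Fin 3 → ℂ} (h : z 0 ≠ 0) : z = z 0 • (![1, z 1 / z 0, z 2 / z 0] : Fin 3 → ℂ) := by
  funext i
  fin_cases i
  · simp
  · simp [mul_div_cancel₀ _ h]
  · simp [mul_div_cancel₀ _ h]

lemma psi_aff (α : ℕ) (k f : ℕ → κ → ℂ) (ε : ℂ) {z : Fin 3 → ℂ} (h : z 0 ≠ 0) :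
    psi α k f ε z = z 0 ^ α • psi α k f ε ![1, z 1 / z 0, z 2 / z 0] := by
  conv_lhs => rw [aff_eq h]
  exact psi_smul _ _ _ _ _ _

variable [Finite κ] [Finite μ]

/-- local injectivity in the chart -/
lemma inj_chart {α β : ℕ} {f : ℕ → κ → ℂ} {g : ℕ → μ → ℂ} {k : ℕ → κ → ℂ} {l : ℕ → μ → ℂ}
    (hT : Trans α β f g k l) (t w w' : ℂ) :
    ∀ᶠ p : Par κ μ × (ℂ × ℂ) × (ℂ × ℂ) in 𝓝 ((f, g, 0), (t, w), (t, w')),
      p.1.2.2 ≠ 0 → ∀ c c' : ℂ,
      psi α k p.1.1 p.1.2.2 ![1, p.2.1.1, p.2.1.2] =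
        c • psi α k p.1.1 p.1.2.2 ![1, p.2.2.1, p.2.2.2] →
      psi β l p.1.2.1 p.1.2.2 ![1, p.2.1.1, p.2.1.2] =
        c' • psi β l p.1.2.1 p.1.2.2 ![1, p.2.2.1, p.2.2.2] →
      p.2.1.1 = p.2.2.1 ∧ p.2.1.2 = p.2.2.2 := by
  have hc : Continuous fun p : Par κ μ × (ℂ × ℂ) × (ℂ × ℂ) =>
      (p.1, p.2.1.1, p.2.2.1, p.2.2.2) := by
    refine continuous_fst.prodMk ((continuous_fst.comp (continuous_fst.comp continuous_snd)).prodMk
      ((continuous_fst.comp (continuous_snd.comp continuous_snd)).prodMk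
      (continuous_snd.comp (continuous_snd.comp continuous_snd))))
  have h := (hc.continuousAt (x := ((f, g, 0), (t, w), (t, w')))).eventually
    (vec_indep hT t w')
  filter_upwards [h] with p hp hε c c' h1 h2
  obtain ⟨⟨f', g', ε⟩, ⟨T, W⟩, ⟨T', W'⟩⟩ := p
  simp only at hp hε h1 h2 ⊢
  have e1 := psi_sub α k f' ε T W T' W'
  have e2 := psi_sub β l g' ε T W T' W'
  rw [h1] at e1
  rw [h2] at e2
  rw [Fintype.linearIndependent_iff] at hp
  have key := hp ![T - T', -(ε * (W - W')), -(c - 1), -(c' - 1)] (by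
    unfold vec
    simp only [Fin.sum_univ_four, Matrix.cons_val_zero, Matrix.cons_val_one, Matrix.cons_val]
    refine Prod.ext ?_ ?_
    · simp only [Prod.fst_add, Prod.smul_fst, Prod.fst_zero, smul_zero, add_zero]
      have e1' : (T - T') • (dd α f' T T' - (ε * W') • ddw α k T T') +
          -(ε * (W - W')) • formw α k 1 T = (c - 1) • psi α k f' ε ![1, T', W'] := by
        rw [neg_smul, ← sub_eq_add_neg, ← e1, sub_smul c 1, one_smul]
      rw [e1', neg_smul, add_neg_cancel]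
    · simp only [Prod.snd_add, Prod.smul_snd, Prod.snd_zero, smul_zero, add_zero]
      have e2' : (T - T') • (dd β g' T T' - (ε * W') • ddw β l T T') +
          -(ε * (W - W')) • formw β l 1 T = (c' - 1) • psi β l g' ε ![1, T', W'] := by
        rw [neg_smul, ← sub_eq_add_neg, ← e2, sub_smul c' 1, one_smul]
      rw [e2', neg_smul, add_neg_cancel])
  have k0 := key 0
  have k1 := key 1
  simp only [Matrix.cons_val_zero, Matrix.cons_val_one] at k0 k1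
  refine ⟨sub_eq_zero.1 k0, ?_⟩
  rw [neg_eq_zero, mul_eq_zero] at k1
  exact sub_eq_zero.1 (k1.resolve_left hε)

/-- the injectivity property -/
def PInj (α β : ℕ) (k : ℕ → κ → ℂ) (l : ℕ → μ → ℂ) (q : Par κ μ) (z z' : Fin 3 → ℂ) : Prop :=
  q.2.2 ≠ 0 → (∃ c : ℂ, psi α k q.1 q.2.2 z' = c • psi α k q.1 q.2.2 z) →
    (∃ c : ℂ, psi β l q.2.1 q.2.2 z' = c • psi β l q.2.1 q.2.2 z) → ∃ c : ℂ, z' = c • z

lemma inj_near {α β : ℕ} {f : ℕ → κ → ℂ} {g : ℕ → μ → ℂ} {k : ℕ → κ → ℂ} {l : ℕ → μ → ℂ}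
    (hT : Trans α β f g k l) {z z' : Fin 3 → ℂ} (hz : z 0 ≠ 0) (hz' : z' 0 ≠ 0)
    (h : z 1 / z 0 = z' 1 / z' 0) :
    ∀ᶠ p : Par κ μ × (Fin 3 → ℂ) × (Fin 3 → ℂ) in 𝓝 ((f, g, 0), z, z'),
      PInj α β k l p.1 p.2.1 p.2.2 := by
  have c0 : ∀ i, Continuous fun p : Par κ μ × (Fin 3 → ℂ) × (Fin 3 → ℂ) => p.2.1 i :=
    fun i => (continuous_apply i).comp (continuous_fst.comp continuous_snd)
  have c1 : ∀ i, Continuous fun p : Par κ μ × (Fin 3 → ℂ) × (Fin 3 → ℂ) => p.2.2 i :=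
    fun i => (continuous_apply i).comp (continuous_snd.comp continuous_snd)
  have n0 : ∀ᶠ p : Par κ μ × (Fin 3 → ℂ) × (Fin 3 → ℂ) in 𝓝 ((f, g, 0), z, z'), p.2.1 0 ≠ 0 :=
    (c0 0).continuousAt.eventually_ne hz
  have n1 : ∀ᶠ p : Par κ μ × (Fin 3 → ℂ) × (Fin 3 → ℂ) in 𝓝 ((f, g, 0), z, z'), p.2.2 0 ≠ 0 :=
    (c1 0).continuousAt.eventually_ne hz'
  have hm : ContinuousAt (fun p : Par κ μ × (Fin 3 → ℂ) × (Fin 3 → ℂ) =>
      (p.1, (p.2.2 1 / p.2.2 0, p.2.2 2 / p.2.2 0), (p.2.1 1 / p.2.1 0, p.2.1 2 / p.2.1 0)))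
      ((f, g, 0), z, z') := by
    refine ContinuousAt.prodMk continuousAt_fst (ContinuousAt.prodMk (ContinuousAt.prodMk ?_ ?_)
      (ContinuousAt.prodMk ?_ ?_))
    · exact (c1 1).continuousAt.div (c1 0).continuousAt hz'
    · exact (c1 2).continuousAt.div (c1 0).continuousAt hz'
    · exact (c0 1).continuousAt.div (c0 0).continuousAt hz
    · exact (c0 2).continuousAt.div (c0 0).continuousAt hz
  have h2 := inj_chart hT (z' 1 / z' 0) (z' 2 / z' 0) (z 2 / z 0)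
  have h3 : Tendsto (fun p : Par κ μ × (Fin 3 → ℂ) × (Fin 3 → ℂ) =>
      (p.1, (p.2.2 1 / p.2.2 0, p.2.2 2 / p.2.2 0), (p.2.1 1 / p.2.1 0, p.2.1 2 / p.2.1 0)))
      (𝓝 ((f, g, 0), z, z'))
      (𝓝 ((f, g, 0), (z' 1 / z' 0, z' 2 / z' 0), (z' 1 / z' 0, z 2 / z 0))) := by
    have := hm.tendsto
    simp only at this
    rw [h] at this
    exact this
  filter_upwards [h3.eventually h2, n0, n1] with p hp m0 m1
  obtain ⟨⟨f', g', ε⟩, y, y'⟩ := p
  simp only at hp m0 m1 ⊢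
  intro hε ⟨c, hc⟩ ⟨c', hc'⟩
  simp only at hε hc hc'
  rw [psi_aff α k f' ε m0, psi_aff α k f' ε m1] at hc
  rw [psi_aff β l g' ε m0, psi_aff β l g' ε m1] at hc'
  obtain ⟨e1, e2⟩ := hp hε ((y' 0 ^ α)⁻¹ * (c * y 0 ^ α)) ((y' 0 ^ β)⁻¹ * (c' * y 0 ^ β)) (by
    rw [mul_smul, mul_smul, ← hc, smul_smul, inv_mul_cancel₀ (pow_ne_zero _ m1), one_smul]) (by
    rw [mul_smul, mul_smul, ← hc', smul_smul, inv_mul_cancel₀ (pow_ne_zero _ m1), one_smul])
  refine ⟨y' 0 / y 0, ?_⟩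
  rw [div_eq_div_iff m1 m0] at e1 e2
  funext i
  simp only [Pi.smul_apply, smul_eq_mul]
  fin_cases i
  · simp only [Fin.zero_eta]
    field_simp
  · simp only [Fin.mk_one]
    field_simp
    linear_combination e1
  · simp only [Fin.reduceFinMk]
    field_simp
    linear_combination e2

/-- non-proportional values stay non-proportional -/
lemma inj_far {α β : ℕ} {f : ℕ → κ → ℂ} {g : ℕ → μ → ℂ} (k : ℕ → κ → ℂ) (l : ℕ → μ → ℂ)
    {z z' : Fin 3 → ℂ} (hF : form α f (z 0) (z 1) ≠ 0) (hG : form β g (z 0) (z 1) ≠ 0)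
    (h : ¬ ((∃ c : ℂ, form α f (z' 0) (z' 1) = c • form α f (z 0) (z 1)) ∧
      ∃ c : ℂ, form β g (z' 0) (z' 1) = c • form β g (z 0) (z 1))) :
    ∀ᶠ p : Par κ μ × (Fin 3 → ℂ) × (Fin 3 → ℂ) in 𝓝 ((f, g, 0), z, z'),
      PInj α β k l p.1 p.2.1 p.2.2 := by
  have _ := Fintype.ofFinite κ
  have _ := Fintype.ofFinite μ
  have c1 : Continuous fun p : Par κ μ × (Fin 3 → ℂ) × (Fin 3 → ℂ) => p.1.1 :=
    continuous_fst.comp continuous_fst
  have c2 : Continuous fun p : Par κ μ × (Fin 3 → ℂ) × (Fin 3 → ℂ) => p.1.2.1 :=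
    continuous_fst.comp (continuous_snd.comp continuous_fst)
  have c3 : Continuous fun p : Par κ μ × (Fin 3 → ℂ) × (Fin 3 → ℂ) => p.1.2.2 :=
    continuous_snd.comp (continuous_snd.comp continuous_fst)
  have d1 : Continuous fun p : Par κ μ × (Fin 3 → ℂ) × (Fin 3 → ℂ) => p.2.1 :=
    continuous_fst.comp continuous_snd
  have d2 : Continuous fun p : Par κ μ × (Fin 3 → ℂ) × (Fin 3 → ℂ) => p.2.2 :=
    continuous_snd.comp continuous_snd
  have z0 : ∀ (α : ℕ) (κ : Type) (k f : ℕ → κ → ℂ) (z : Fin 3 → ℂ),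
      psi α k f 0 z = form α f (z 0) (z 1) := by
    intro α κ k f z
    unfold psi
    rw [zero_mul, zero_smul, sub_zero]
  rw [not_and_or] at h
  rcases h with h | h
  · have hli : LinearIndependent ℂ (![psi α k f 0 z, psi α k f 0 z'] : Fin 2 → κ → ℂ) := by
      rw [LinearIndependent.pair_iff' (by rw [z0]; exact hF)]
      intro c hc
      rw [z0, z0] at hc
      exact h ⟨c, hc.symm⟩
    have hcont : Continuous fun p : Par κ μ × (Fin 3 → ℂ) × (Fin 3 → ℂ) =>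
        (![psi α k p.1.1 p.1.2.2 p.2.1, psi α k p.1.1 p.1.2.2 p.2.2] : Fin 2 → κ → ℂ) := by
      refine continuous_pi fun i => ?_
      fin_cases i
      · exact Cont.psi α k c1 c3 d1
      · exact Cont.psi α k c1 c3 d2
    have hopen : IsOpen {v : Fin 2 → (κ → ℂ) | LinearIndependent ℂ v} :=
      isOpen_setOfPred_linearIndependent
    have he := (hcont.continuousAt (x := ((f, g, 0), z, z'))).eventually (hopen.mem_nhds hli)
    filter_upwards [he] with p hp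
    rintro - ⟨c, hc⟩ -
    exact absurd hc.symm ((LinearIndependent.pair_iff' (LinearIndependent.ne_zero 0 hp)).1 hp c)
  · have hli : LinearIndependent ℂ (![psi β l g 0 z, psi β l g 0 z'] : Fin 2 → μ → ℂ) := by
      rw [LinearIndependent.pair_iff' (by rw [z0]; exact hG)]
      intro c hc
      rw [z0, z0] at hc
      exact h ⟨c, hc.symm⟩
    have hcont : Continuous fun p : Par κ μ × (Fin 3 → ℂ) × (Fin 3 → ℂ) =>
        (![psi β l p.1.2.1 p.1.2.2 p.2.1, psi β l p.1.2.1 p.1.2.2 p.2.2] : Fin 2 → μ → ℂ) := by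
      refine continuous_pi fun i => ?_
      fin_cases i
      · exact Cont.psi β l c2 c3 d1
      · exact Cont.psi β l c2 c3 d2
    have hopen : IsOpen {v : Fin 2 → (μ → ℂ) | LinearIndependent ℂ v} :=
      isOpen_setOfPred_linearIndependent
    have he := (hcont.continuousAt (x := ((f, g, 0), z, z'))).eventually (hopen.mem_nhds hli)
    filter_upwards [he] with p hp
    rintro - - ⟨c, hc⟩
    exact absurd hc.symm ((LinearIndependent.pair_iff' (LinearIndependent.ne_zero 0 hp)).1 hp c)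

end Pool.Agent.TH144.AE
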