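import Pool.Agent.TH144.AE.Core2

/-! Perturbing a triple cover of an immersed rational curve to an embedded cubic, III. -/

set_option autoImplicit false

open Finset Filter Topology

namespace Pool.Agent.TH144.AE

lemma hasDerivAt_eval {σ : Type} [Fintype σ] (G : MvPolynomial σ ℂ) {y : ℂ → σ → ℂ} {y' : σ → ℂ}
    {τ : ℂ} (hy : ∀ i, HasDerivAt (fun z => y z i) (y' i) τ) :
    HasDerivAt (fun z => MvPolynomial.eval (y z) G)
      (∑ i, y' i * MvPolynomial.eval (y τ) (MvPolynomial.pderiv i G)) τ := by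
  classical
  induction G using MvPolynomial.induction_on with
  | C a => simpa using hasDerivAt_const τ a
  | add p q hp hq =>
    have h := hp.add hq
    simp only [map_add, mul_add, sum_add_distrib]
    exact h
  | mul_X p i hp =>
    have h := hp.mul (hy i)
    have e : (∑ j, y' j * MvPolynomial.eval (y τ) (MvPolynomial.pderiv j (p * MvPolynomial.X i))) =
        (∑ j, y' j * MvPolynomial.eval (y τ) (MvPolynomial.pderiv j p)) * y τ i +
          MvPolynomial.eval (y τ) p * y' i := by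
      have e1 : ∀ j, y' j * MvPolynomial.eval (y τ)
          (MvPolynomial.pderiv j (p * MvPolynomial.X i)) =
          y' j * MvPolynomial.eval (y τ) (MvPolynomial.pderiv j p) * y τ i +
            (if j = i then MvPolynomial.eval (y τ) p * y' i else 0) := by
        intro j
        rw [Derivation.leibniz, MvPolynomial.pderiv_X]
        by_cases hj : j = i
        · subst hj
          simp
          ring
        · have hj' : i ≠ j := fun h => hj h.symm
          simp [hj, hj', Pi.single_apply]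
          ring
      rw [sum_congr rfl fun j _ => e1 j, sum_add_distrib, sum_mul]
      simp
    simp only [map_mul, MvPolynomial.eval_X]
    rw [e]
    exact h

variable {κ μ : Type}

lemma form_apply (α : ℕ) (f : ℕ → κ → ℂ) (s t : ℂ) (j : κ) :
    form α f s t j = ∑ i ∈ range (α + 1), s ^ (α - i) * t ^ i * f i j := by
  unfold form
  simp [Finset.sum_apply]

lemma dform_apply (α : ℕ) (f : ℕ → κ → ℂ) (t : ℂ) (j : κ) :
    dform α f t j = ∑ i ∈ range (α + 1), (i : ℂ) * t ^ (i - 1) * f i j := by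
  unfold dform
  simp [Finset.sum_apply]

lemma hasDerivAt_form (α : ℕ) (f : ℕ → κ → ℂ) {T : ℂ → ℂ} {T' τ : ℂ} (hT : HasDerivAt T T' τ)
    (j : κ) : HasDerivAt (fun z => form α f 1 (T z) j) (T' * dform α f (T τ) j) τ := by
  simp only [form_apply, dform_apply, one_pow, one_mul]
  rw [Finset.mul_sum]
  refine HasDerivAt.fun_sum fun i _ => ?_
  have h2 := (hT.fun_pow i).mul_const (f i j)
  have e : T' * ((i : ℂ) * T τ ^ (i - 1) * f i j) = (i : ℂ) * T τ ^ (i - 1) * T' * f i j := by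
    ring
  rw [e]
  exact h2

lemma hasDerivAt_formw (α : ℕ) (k : ℕ → κ → ℂ) {T : ℂ → ℂ} {T' τ : ℂ}
    (hT : HasDerivAt T T' τ) (j : κ) :
    HasDerivAt (fun z => formw α k 1 (T z) j) (T' * ddw α k (T τ) (T τ) j) τ := by
  unfold formw ddw
  split_ifs
  · simpa using hasDerivAt_const τ (0 : ℂ)
  · rw [dd_self]
    exact hasDerivAt_form _ _ hT j

lemma hasDerivAt_psi (α : ℕ) (k f : ℕ → κ → ℂ) (ε : ℂ) {T W : ℂ → ℂ} {T' W' τ : ℂ}
    (hT : HasDerivAt T T' τ) (hW : HasDerivAt W W' τ) (j : κ) :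
    HasDerivAt (fun z => psi α k f ε ![1, T z, W z] j)
      ((T' • (dd α f (T τ) (T τ) - (ε * W τ) • ddw α k (T τ) (T τ)) -
        (ε * W') • formw α k 1 (T τ)) j) τ := by
  unfold psi
  simp only [Matrix.cons_val_zero, Matrix.cons_val_one, Matrix.cons_val, Pi.sub_apply,
    Pi.smul_apply, smul_eq_mul]
  have h1 := hasDerivAt_form α f hT j
  have h2 := (hW.const_mul ε).fun_mul (hasDerivAt_formw α k hT j)
  have h3 := h1.fun_sub h2
  rw [dd_self]
  have e : T' * (dform α f (T τ) j - ε * W τ * ddw α k (T τ) (T τ) j) -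
      ε * W' * formw α k 1 (T τ) j = T' * dform α f (T τ) j -
      (ε * W' * formw α k 1 (T τ) j + ε * W τ * (T' * ddw α k (T τ) (T τ) j)) := by ring
  rw [e]
  exact h3

/-- The immersion property: the differential of the map at `z` kills only the multiples of `z`. -/
def PImm (α β : ℕ) (k : ℕ → κ → ℂ) (l : ℕ → μ → ℂ) (q : Par κ μ)
    (z : Fin 3 → ℂ) : Prop :=
  q.2.2 ≠ 0 → ∀ v : Fin 3 → ℂ,
    (∃ c : ℂ, ∀ i, HasDerivAt (fun τ : ℂ => psi α k q.1 q.2.2 (z + τ • v) i)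
      (c * psi α k q.1 q.2.2 z i) 0) →
    (∃ c : ℂ, ∀ i, HasDerivAt (fun τ : ℂ => psi β l q.2.1 q.2.2 (z + τ • v) i)
      (c * psi β l q.2.1 q.2.2 z i) 0) → ∃ c : ℂ, v = c • z

/-- the derivative in the affine chart -/
lemma aff_deriv (α : ℕ) (k f : ℕ → κ → ℂ) (ε : ℂ) {z v : Fin 3 → ℂ} (hz : z 0 ≠ 0) {c : ℂ}
    (h : ∀ i, HasDerivAt (fun τ : ℂ => psi α k f ε (z + τ • v) i) (c * psi α k f ε z i) 0) :
    ∃ c' : ℂ, ((v 1 * z 0 - z 1 * v 0) / z 0 ^ 2) •
        (dd α f (z 1 / z 0) (z 1 / z 0) - (ε * (z 2 / z 0)) • ddw α k (z 1 / z 0) (z 1 / z 0)) -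
        (ε * ((v 2 * z 0 - z 2 * v 0) / z 0 ^ 2)) • formw α k 1 (z 1 / z 0) =
      c' • psi α k f ε ![1, z 1 / z 0, z 2 / z 0] := by
  have ha : ∀ i, HasDerivAt (fun τ : ℂ => z i + τ * v i) (v i) 0 := by
    intro i
    have := ((hasDerivAt_id (0 : ℂ)).mul_const (v i)).const_add (z i)
    simpa using this
  have hz' : z 0 + (0 : ℂ) * v 0 ≠ 0 := by simpa using hz
  have hT := (ha 1).fun_div (ha 0) hz'
  have hW := (ha 2).fun_div (ha 0) hz'
  have hp := ((ha 0).fun_pow α).fun_inv (pow_ne_zero _ hz')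
  refine ⟨((z 0 ^ α)⁻¹ * c + (-(α * z 0 ^ (α - 1) * v 0) / (z 0 ^ α) ^ 2)) * z 0 ^ α, ?_⟩
  funext j
  have hd := hasDerivAt_psi α k f ε hT hW j
  have hq := hp.fun_mul (h j)
  have heq : (fun τ : ℂ => psi α k f ε ![1, (z 1 + τ * v 1) / (z 0 + τ * v 0),
      (z 2 + τ * v 2) / (z 0 + τ * v 0)] j) =ᶠ[𝓝 0]
      fun τ : ℂ => ((z 0 + τ * v 0) ^ α)⁻¹ * psi α k f ε (z + τ • v) j := by
    have hne : ∀ᶠ τ : ℂ in 𝓝 0, z 0 + τ * v 0 ≠ 0 :=
      (ha 0).continuousAt.eventually_ne hz'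
    filter_upwards [hne] with τ hτ
    have e := psi_aff α k f ε (z := z + τ • v) (by simpa using hτ)
    rw [e]
    simp only [Pi.add_apply, Pi.smul_apply, smul_eq_mul]
    rw [← mul_assoc, inv_mul_cancel₀ (pow_ne_zero _ hτ), one_mul]
  have hu := (hq.congr_of_eventuallyEq heq).unique hd
  simp only [zero_mul, add_zero, zero_smul] at hu
  rw [← hu]
  have e := congrFun (psi_aff α k f ε hz) j
  simp only [Pi.smul_apply, smul_eq_mul] at e ⊢
  rw [e]
  ring

variable [Finite κ] [Finite μ]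

lemma imm_near {α β : ℕ} {f : ℕ → κ → ℂ} {g : ℕ → μ → ℂ} {k : ℕ → κ → ℂ} {l : ℕ → μ → ℂ}
    (hT : Trans α β f g k l) {z : Fin 3 → ℂ} (hz : z 0 ≠ 0) :
    ∀ᶠ p : Par κ μ × (Fin 3 → ℂ) in 𝓝 ((f, g, 0), z), PImm α β k l p.1 p.2 := by
  have c0 : ∀ i, Continuous fun p : Par κ μ × (Fin 3 → ℂ) => p.2 i :=
    fun i => (continuous_apply i).comp continuous_snd
  have n0 : ∀ᶠ p : Par κ μ × (Fin 3 → ℂ) in 𝓝 ((f, g, 0), z), p.2 0 ≠ 0 :=
    (c0 0).continuousAt.eventually_ne hz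
  have hm : ContinuousAt (fun p : Par κ μ × (Fin 3 → ℂ) =>
      (p.1, p.2 1 / p.2 0, p.2 1 / p.2 0, p.2 2 / p.2 0)) ((f, g, 0), z) := by
    refine ContinuousAt.prodMk continuousAt_fst (ContinuousAt.prodMk ?_
      (ContinuousAt.prodMk ?_ ?_))
    · exact (c0 1).continuousAt.div (c0 0).continuousAt hz
    · exact (c0 1).continuousAt.div (c0 0).continuousAt hz
    · exact (c0 2).continuousAt.div (c0 0).continuousAt hz
  filter_upwards [hm.eventually (vec_indep hT (z 1 / z 0) (z 2 / z 0)), n0] with p hp m0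
  obtain ⟨⟨f', g', ε⟩, y⟩ := p
  simp only at hp m0 ⊢
  intro hε v ⟨c, hc⟩ ⟨c', hc'⟩
  simp only at hε hc hc'
  obtain ⟨d, hd⟩ := aff_deriv α k f' ε m0 hc
  obtain ⟨d', hd'⟩ := aff_deriv β l g' ε m0 hc'
  rw [Fintype.linearIndependent_iff] at hp
  have key := hp ![(v 1 * y 0 - y 1 * v 0) / y 0 ^ 2, -(ε * ((v 2 * y 0 - y 2 * v 0) / y 0 ^ 2)),
      -d, -d'] (by
    unfold vec
    simp only [Fin.sum_univ_four, Matrix.cons_val_zero, Matrix.cons_val_one, Matrix.cons_val]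
    refine Prod.ext ?_ ?_
    · simp only [Prod.fst_add, Prod.smul_fst, Prod.fst_zero, smul_zero, add_zero]
      rw [neg_smul (ε * _), ← sub_eq_add_neg, hd, neg_smul, add_neg_cancel]
    · simp only [Prod.snd_add, Prod.smul_snd, Prod.snd_zero, smul_zero, add_zero]
      rw [neg_smul (ε * _), ← sub_eq_add_neg, hd', neg_smul, add_neg_cancel])
  have k0 := key 0
  have k1 := key 1
  simp only [Matrix.cons_val_zero, Matrix.cons_val_one] at k0 k1
  have hy2 : y 0 ^ 2 ≠ 0 := pow_ne_zero _ m0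
  rw [div_eq_zero_iff] at k0
  have k0' := k0.resolve_right hy2
  rw [neg_eq_zero, mul_eq_zero, div_eq_zero_iff] at k1
  have k1' := (k1.resolve_left hε).resolve_right hy2
  refine ⟨v 0 / y 0, ?_⟩
  funext i
  simp only [Pi.smul_apply, smul_eq_mul]
  fin_cases i
  · simp only [Fin.zero_eta]
    field_simp
  · simp only [Fin.mk_one]
    field_simp
    linear_combination k0'
  · simp only [Fin.reduceFinMk]
    field_simp
    linear_combination k1'

end Pool.Agent.TH144.AE
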