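import Pool.Agent.TH144.AE.Core3

/-! Perturbing a triple cover of an immersed rational curve to an embedded cubic, IV. -/

set_option autoImplicit false

open Finset Filter Topology

namespace Pool.Agent.TH144.AE

variable {κ μ : Type}

lemma continuous_rev (α : ℕ) : Continuous fun f : ℕ → κ → ℂ => rev α f :=
  continuous_pi fun i => continuous_apply (α - i)

lemma continuous_swp : Continuous swp := by
  refine continuous_pi fun i => ?_
  fin_cases i
  · exact continuous_apply 1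
  · exact continuous_apply 0
  · exact continuous_apply 2

lemma swp_smul (c : ℂ) (z : Fin 3 → ℂ) : swp (c • z) = c • swp z := by
  funext i
  fin_cases i <;> rfl

lemma swp_add (z v : Fin 3 → ℂ) : swp (z + v) = swp z + swp v := by
  funext i
  fin_cases i <;> rfl

lemma swp_inj {z v : Fin 3 → ℂ} (h : swp z = swp v) : z = v := by
  rw [← swp_swp z, h, swp_swp]

/-- the parameters with the variables exchanged -/
def revq (α β : ℕ) (q : Par κ μ) : Par κ μ := (rev α q.1, rev β q.2.1, q.2.2)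

lemma continuous_revq (α β : ℕ) : Continuous fun q : Par κ μ => revq α β q :=
  ((continuous_rev α).comp continuous_fst).prodMk
    (((continuous_rev β).comp (continuous_fst.comp continuous_snd)).prodMk
      (continuous_snd.comp continuous_snd))

lemma PInj.of_swp {α β : ℕ} {k : ℕ → κ → ℂ} {l : ℕ → μ → ℂ} {q : Par κ μ} {z z' : Fin 3 → ℂ}
    (h : PInj α β (rev (α - 1) k) (rev (β - 1) l) (revq α β q) (swp z) (swp z')) :
    PInj α β k l q z z' := by
  intro hε ⟨c, hc⟩ ⟨c', hc'⟩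
  rw [psi_swp α k, psi_swp α k] at hc
  rw [psi_swp β l, psi_swp β l] at hc'
  obtain ⟨d, hd⟩ := h hε ⟨c, hc⟩ ⟨c', hc'⟩
  exact ⟨d, swp_inj (by rw [hd, swp_smul])⟩

lemma PImm.of_swp {α β : ℕ} {k : ℕ → κ → ℂ} {l : ℕ → μ → ℂ} {q : Par κ μ} {z : Fin 3 → ℂ}
    (h : PImm α β (rev (α - 1) k) (rev (β - 1) l) (revq α β q) (swp z)) :
    PImm α β k l q z := by
  intro hε v ⟨c, hc⟩ ⟨c', hc'⟩
  obtain ⟨d, hd⟩ := h hε (swp v) ⟨c, fun i => by
    have := hc i
    rw [psi_swp α k] at this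
    refine this.congr_of_eventuallyEq (Eventually.of_forall fun τ => ?_)
    change psi α (rev (α - 1) k) (rev α q.1) q.2.2 (swp z + τ • swp v) i =
      psi α k q.1 q.2.2 (z + τ • v) i
    rw [psi_swp α k, swp_add, swp_smul]⟩ ⟨c', fun i => by
    have := hc' i
    rw [psi_swp β l] at this
    refine this.congr_of_eventuallyEq (Eventually.of_forall fun τ => ?_)
    change psi β (rev (β - 1) l) (rev β q.2.1) q.2.2 (swp z + τ • swp v) i =
      psi β l q.2.1 q.2.2 (z + τ • v) i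
    rw [psi_swp β l, swp_add, swp_smul]⟩
  exact ⟨d, swp_inj (by rw [hd, swp_smul])⟩

lemma PImm.smul {α β : ℕ} {k : ℕ → κ → ℂ} {l : ℕ → μ → ℂ} {q : Par κ μ} {z : Fin 3 → ℂ}
    (h : PImm α β k l q z) {r : ℂ} (hr : r ≠ 0) : PImm α β k l q (r • z) := by
  intro hε v ⟨c, hc⟩ ⟨c', hc'⟩
  have key : ∀ (ν : Type) (α : ℕ) (k f : ℕ → ν → ℂ) (c : ℂ) (i : ν),
      HasDerivAt (fun τ : ℂ => psi α k f q.2.2 (r • z + τ • v) i)
        (c * psi α k f q.2.2 (r • z) i) 0 →
      HasDerivAt (fun τ : ℂ => psi α k f q.2.2 (z + τ • (r⁻¹ • v)) i)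
        (c * psi α k f q.2.2 z i) 0 := by
    intro ν α k f c i h1
    have h2 := h1.const_mul ((r ^ α)⁻¹)
    have e1 : (r ^ α)⁻¹ * (c * psi α k f q.2.2 (r • z) i) = c * psi α k f q.2.2 z i := by
      rw [psi_smul, Pi.smul_apply, smul_eq_mul]
      field_simp
    rw [e1] at h2
    refine h2.congr_of_eventuallyEq (Eventually.of_forall fun τ => ?_)
    change psi α k f q.2.2 (z + τ • (r⁻¹ • v)) i = (r ^ α)⁻¹ * psi α k f q.2.2 (r • z + τ • v) i
    have e2 : r • z + τ • v = r • (z + τ • (r⁻¹ • v)) := by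
      rw [smul_add, smul_comm r τ, smul_smul r r⁻¹, mul_inv_cancel₀ hr, one_smul]
    rw [e2, psi_smul, Pi.smul_apply, smul_eq_mul, ← mul_assoc,
      inv_mul_cancel₀ (pow_ne_zero _ hr), one_mul]
  obtain ⟨d, hd⟩ := h hε (r⁻¹ • v) ⟨c, fun i => key _ _ _ _ _ _ (hc i)⟩
    ⟨c', fun i => key _ _ _ _ _ _ (hc' i)⟩
  refine ⟨d, ?_⟩
  rw [smul_comm, ← hd, smul_smul, mul_inv_cancel₀ hr, one_smul]

lemma PInj.smul {α β : ℕ} {k : ℕ → κ → ℂ} {l : ℕ → μ → ℂ} {q : Par κ μ} {z z' : Fin 3 → ℂ}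
    (h : PInj α β k l q z z') {r r' : ℂ} (hr : r ≠ 0) (hr' : r' ≠ 0) :
    PInj α β k l q (r • z) (r' • z') := by
  intro hε ⟨c, hc⟩ ⟨c', hc'⟩
  rw [psi_smul, psi_smul] at hc hc'
  obtain ⟨d, hd⟩ := h hε ⟨(r' ^ α)⁻¹ * (c * r ^ α), by
    rw [mul_smul, mul_smul, ← hc, smul_smul, inv_mul_cancel₀ (pow_ne_zero _ hr'), one_smul]⟩
    ⟨(r' ^ β)⁻¹ * (c' * r ^ β), by
    rw [mul_smul, mul_smul, ← hc', smul_smul, inv_mul_cancel₀ (pow_ne_zero _ hr'), one_smul]⟩
  refine ⟨r' * d * r⁻¹, ?_⟩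
  rw [hd, smul_smul, smul_smul, mul_assoc, mul_assoc, inv_mul_cancel₀ hr, mul_one]

/-- the unit vectors of the cone over the cubic -/
def Esph : Set (Fin 3 → ℂ) := {z | ‖z‖ = 1 ∧ z 2 ^ 3 = z 0 ^ 3 + z 1 ^ 3}

lemma esph_compact : IsCompact Esph := by
  apply Metric.isCompact_of_isClosed_isBounded
  · refine IsClosed.inter (isClosed_eq continuous_norm continuous_const) ?_
    exact isClosed_eq ((continuous_apply 2).pow 3)
      (((continuous_apply 0).pow 3).add ((continuous_apply 1).pow 3))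
  · refine (Metric.isBounded_closedBall (x := (0 : Fin 3 → ℂ)) (r := 1)).subset fun z hz => ?_
    rw [mem_closedBall_zero_iff]
    exact hz.1.le

lemma esph_sub {z : Fin 3 → ℂ} (hz : z ∈ Esph) : z ∈ Ecub :=
  ⟨fun h => by
    have := hz.1
    rw [h, norm_zero] at this
    exact zero_ne_one this, hz.2⟩

lemma exists_esph {z : Fin 3 → ℂ} (hz : z ∈ Ecub) :
    ∃ u ∈ Esph, ∃ r : ℂ, r ≠ 0 ∧ z = r • u := by
  have h0 : ‖z‖ ≠ 0 := norm_ne_zero_iff.2 hz.1
  have h0' : (‖z‖ : ℂ) ≠ 0 := by exact_mod_cast h0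
  refine ⟨(‖z‖ : ℂ)⁻¹ • z, ⟨?_, (ecub_smul hz (inv_ne_zero h0')).2⟩, ‖z‖, h0', ?_⟩
  · rw [norm_smul, norm_inv, Complex.norm_real, norm_norm, inv_mul_cancel₀ h0]
  · rw [smul_smul, mul_inv_cancel₀ h0', one_smul]

variable [Finite κ] [Finite μ]

/-- Small perturbations of the triple cover of an immersed rational curve are embedded. -/
theorem core {α β : ℕ} {f : ℕ → κ → ℂ} {g : ℕ → μ → ℂ} {k : ℕ → κ → ℂ} {l : ℕ → μ → ℂ}
    (hF : ∀ s t : ℂ, s ≠ 0 ∨ t ≠ 0 → form α f s t ≠ 0)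
    (hG : ∀ s t : ℂ, s ≠ 0 ∨ t ≠ 0 → form β g s t ≠ 0)
    (hinj : ∀ s t s' t' : ℂ, s ≠ 0 ∨ t ≠ 0 → s' ≠ 0 ∨ t' ≠ 0 →
      (∃ c : ℂ, form α f s' t' = c • form α f s t) →
      (∃ c : ℂ, form β g s' t' = c • form β g s t) → s * t' = s' * t)
    (hT : Trans α β f g k l)
    (hT' : Trans α β (rev α f) (rev β g) (rev (α - 1) k) (rev (β - 1) l))
    {O : Set ((κ → ℂ) × (μ → ℂ))} (hO : IsOpen O)
    (hOs : ∀ p ∈ O, ∀ a b : ℂ, a ≠ 0 → b ≠ 0 → (a • p.1, b • p.2) ∈ O)
    (hOm : ∀ s t : ℂ, s ≠ 0 ∨ t ≠ 0 → (form α f s t, form β g s t) ∈ O) :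
    ∀ᶠ q : Par κ μ in 𝓝 (f, g, 0),
      (∀ z ∈ Ecub, (psi α k q.1 q.2.2 z, psi β l q.2.1 q.2.2 z) ∈ O ∧
        psi α k q.1 q.2.2 z ≠ 0 ∧ psi β l q.2.1 q.2.2 z ≠ 0) ∧
      (∀ z ∈ Ecub, ∀ z' ∈ Ecub, PInj α β k l q z z') ∧
      (∀ z ∈ Ecub, PImm α β k l q z) := by
  -- values at the centre
  have z0 : ∀ (α : ℕ) (κ : Type) (k f : ℕ → κ → ℂ) (z : Fin 3 → ℂ),
      psi α k f 0 z = form α f (z 0) (z 1) := by
    intro α κ k f z
    unfold psi
    rw [zero_mul, zero_smul, sub_zero]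
  have hrevc : ∀ q : Par κ μ, revq α β q = (rev α q.1, rev β q.2.1, q.2.2) := fun _ => rfl
  -- first property
  have A1 : ∀ᶠ q : Par κ μ in 𝓝 (f, g, 0), ∀ z ∈ Esph,
      ((psi α k q.1 q.2.2 z, psi β l q.2.1 q.2.2 z) ∈ O ∧
        psi α k q.1 q.2.2 z ≠ 0 ∧ psi β l q.2.1 q.2.2 z ≠ 0) := by
    refine esph_compact.eventually_forall_of_forall_eventually fun z hz => ?_
    have c1 : Continuous fun p : Par κ μ × (Fin 3 → ℂ) => psi α k p.1.1 p.1.2.2 p.2 :=
      Cont.psi α k (continuous_fst.comp continuous_fst)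
        (continuous_snd.comp (continuous_snd.comp continuous_fst)) continuous_snd
    have c2 : Continuous fun p : Par κ μ × (Fin 3 → ℂ) => psi β l p.1.2.1 p.1.2.2 p.2 :=
      Cont.psi β l (continuous_fst.comp (continuous_snd.comp continuous_fst))
        (continuous_snd.comp (continuous_snd.comp continuous_fst)) continuous_snd
    have hz' := ecub_pair (esph_sub hz)
    have e1 : (psi α k f 0 z, psi β l g 0 z) ∈ O := by
      rw [z0, z0]
      exact hOm _ _ hz'
    have e2 : psi α k f 0 z ≠ 0 := by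
      rw [z0]
      exact hF _ _ hz'
    have e3 : psi β l g 0 z ≠ 0 := by
      rw [z0]
      exact hG _ _ hz'
    have h1 := ((c1.prodMk c2).continuousAt (x := ((f, g, 0), z))).eventually (hO.mem_nhds e1)
    have h2 := (c1.continuousAt (x := ((f, g, 0), z))).eventually_ne e2
    have h3 := (c2.continuousAt (x := ((f, g, 0), z))).eventually_ne e3
    filter_upwards [h1, h2, h3] with p p1 p2 p3
    exact ⟨p1, p2, p3⟩
  -- second property
  have A2 : ∀ᶠ q : Par κ μ in 𝓝 (f, g, 0), ∀ w ∈ Esph ×ˢ Esph, PInj α β k l q w.1 w.2 := by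
    refine (esph_compact.prod esph_compact).eventually_forall_of_forall_eventually
      fun w hw => ?_
    obtain ⟨z, z'⟩ := w
    obtain ⟨hz, hz'⟩ := hw
    have p1 : z 0 ≠ 0 ∨ z 1 ≠ 0 := ecub_pair (esph_sub hz)
    have p2 : z' 0 ≠ 0 ∨ z' 1 ≠ 0 := ecub_pair (esph_sub hz')
    by_cases hprop : (∃ c : ℂ, form α f (z' 0) (z' 1) = c • form α f (z 0) (z 1)) ∧
        ∃ c : ℂ, form β g (z' 0) (z' 1) = c • form β g (z 0) (z 1)
    · have e := hinj _ _ _ _ p1 p2 hprop.1 hprop.2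
      by_cases h0 : z 0 = 0
      · have h1 : z 1 ≠ 0 := p1.resolve_left (not_not.2 h0)
        have h0' : z' 0 = 0 := by
          rw [h0, zero_mul] at e
          rcases mul_eq_zero.1 e.symm with h | h
          · exact h
          · exact absurd h h1
        have h1' : z' 1 ≠ 0 := p2.resolve_left (not_not.2 h0')
        have hcont : Continuous fun p : Par κ μ × (Fin 3 → ℂ) × (Fin 3 → ℂ) =>
            (revq α β p.1, swp p.2.1, swp p.2.2) :=
          ((continuous_revq α β).comp continuous_fst).prodMk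
            ((continuous_swp.comp (continuous_fst.comp continuous_snd)).prodMk
            (continuous_swp.comp (continuous_snd.comp continuous_snd)))
        have h2 := inj_near hT' (z := swp z) (z' := swp z') h1 h1' (by
          change z 0 / z 1 = z' 0 / z' 1
          rw [h0, h0', zero_div, zero_div])
        have h3 := (hcont.continuousAt (x := ((f, g, 0), z, z'))).eventually h2
        filter_upwards [h3] with p hp
        exact PInj.of_swp hp
      · have h0' : z' 0 ≠ 0 := by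
          intro h0'
          have h1' : z' 1 ≠ 0 := p2.resolve_left (not_not.2 h0')
          rw [h0', zero_mul] at e
          rcases mul_eq_zero.1 e with h | h
          · exact h0 h
          · exact h1' h
        exact inj_near hT h0 h0' (by
          rw [div_eq_div_iff h0 h0']
          linear_combination -e)
    · exact inj_far k l (hF _ _ p1) (hG _ _ p1) hprop
  -- third property
  have A3 : ∀ᶠ q : Par κ μ in 𝓝 (f, g, 0), ∀ z ∈ Esph, PImm α β k l q z := by
    refine esph_compact.eventually_forall_of_forall_eventually fun z hz => ?_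
    have p1 := ecub_pair (esph_sub hz)
    by_cases h0 : z 0 = 0
    · have h1 : z 1 ≠ 0 := p1.resolve_left (not_not.2 h0)
      have hcont : Continuous fun p : Par κ μ × (Fin 3 → ℂ) => (revq α β p.1, swp p.2) :=
        ((continuous_revq α β).comp continuous_fst).prodMk (continuous_swp.comp continuous_snd)
      have h2 := imm_near hT' (z := swp z) h1
      have h3 := (hcont.continuousAt (x := ((f, g, 0), z))).eventually h2
      filter_upwards [h3] with p hp
      exact PImm.of_swp hp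
    · exact imm_near hT h0
  filter_upwards [A1, A2, A3] with q h1 h2 h3
  refine ⟨fun z hz => ?_, fun z hz z' hz' => ?_, fun z hz => ?_⟩
  · obtain ⟨u, hu, r, hr, rfl⟩ := exists_esph hz
    obtain ⟨a1, a2, a3⟩ := h1 u hu
    rw [psi_smul, psi_smul]
    exact ⟨hOs _ a1 _ _ (pow_ne_zero _ hr) (pow_ne_zero _ hr), smul_ne_zero (pow_ne_zero _ hr) a2,
      smul_ne_zero (pow_ne_zero _ hr) a3⟩
  · obtain ⟨u, hu, r, hr, rfl⟩ := exists_esph hz
    obtain ⟨u', hu', r', hr', rfl⟩ := exists_esph hz'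
    exact (h2 (u, u') ⟨hu, hu'⟩).smul hr hr'
  · obtain ⟨u, hu, r, hr, rfl⟩ := exists_esph hz
    exact (h3 u hu).smul hr

end Pool.Agent.TH144.AE
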