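import Pool.Agent.TH144.AE.Core4

/-! The perturbed cubics are elliptic curves. -/

set_option autoImplicit false

open Finset Filter Topology MvPolynomial

namespace Pool.Agent.TH144.AE

variable {κ μ : Type}

/-- the polynomial of a form -/
noncomputable def formP (α : ℕ) (f : ℕ → κ → ℂ) (j : κ) : MvPolynomial (Fin 3) ℂ :=
  ∑ i ∈ range (α + 1), C (f i j) * (X 0 ^ (α - i) * X 1 ^ i)

lemma eval_formP (α : ℕ) (f : ℕ → κ → ℂ) (j : κ) (z : Fin 3 → ℂ) :
    eval z (formP α f j) = form α f (z 0) (z 1) j := by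
  rw [form_apply]
  unfold formP
  rw [map_sum]
  refine sum_congr rfl fun i _ => ?_
  simp
  ring

lemma formP_hom (α : ℕ) (f : ℕ → κ → ℂ) (j : κ) : (formP α f j).IsHomogeneous α := by
  unfold formP
  refine IsHomogeneous.sum _ _ _ fun i hi => ?_
  have hi' : i ≤ α := by simpa [Nat.lt_succ_iff] using hi
  have h1 := (isHomogeneous_C (Fin 3) (f i j)).mul
    (((isHomogeneous_X ℂ (0 : Fin 3)).pow (α - i)).mul ((isHomogeneous_X ℂ (1 : Fin 3)).pow i))
  have e : 0 + (1 * (α - i) + 1 * i) = α := by omega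
  rw [e] at h1
  exact h1

/-- the polynomial of the perturbed map -/
noncomputable def psiP (α : ℕ) (k f : ℕ → κ → ℂ) (ε : ℂ) (j : κ) : MvPolynomial (Fin 3) ℂ :=
  formP α f j - if α = 0 then 0 else C ε * (X 2 * formP (α - 1) k j)

lemma eval_psiP (α : ℕ) (k f : ℕ → κ → ℂ) (ε : ℂ) (j : κ) (z : Fin 3 → ℂ) :
    eval z (psiP α k f ε j) = psi α k f ε z j := by
  unfold psiP psi formw
  rw [map_sub, eval_formP]
  split_ifs
  · simp
  · simp [eval_formP]
    ring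

lemma psiP_hom (α : ℕ) (k f : ℕ → κ → ℂ) (ε : ℂ) (j : κ) : (psiP α k f ε j).IsHomogeneous α := by
  unfold psiP
  refine (formP_hom α f j).sub ?_
  split_ifs with h
  · exact isHomogeneous_zero _ _ _
  · have h1 := (isHomogeneous_C (Fin 3) ε).mul ((isHomogeneous_X ℂ (2 : Fin 3)).mul
      (formP_hom (α - 1) k j))
    have e : 0 + (1 + (α - 1)) = α := by omega
    rw [e] at h1
    exact h1

lemma evalT_psiP (α : ℕ) (k f : ℕ → κ → ℂ) (ε : ℂ) (z : Fin 3 → ℂ) :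
    evalT z (psiP α k f ε) = psi α k f ε z := by
  funext j
  unfold evalT
  rw [eval_psiP]

/-- the Fermat cubic -/
noncomputable def cub : MvPolynomial (Fin 3) ℂ := X 2 ^ 3 - X 0 ^ 3 - X 1 ^ 3

lemma eval_cub (z : Fin 3 → ℂ) : eval z cub = z 2 ^ 3 - z 0 ^ 3 - z 1 ^ 3 := by
  unfold cub
  simp

lemma cub_iff {z : Fin 3 → ℂ} (hz : z ≠ 0) : eval z cub = 0 ↔ z ∈ Ecub := by
  rw [eval_cub]
  constructor
  · intro h
    exact ⟨hz, by linear_combination h⟩
  · intro h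
    linear_combination h.2

lemma cub_hom : cub.IsHomogeneous 3 := by
  unfold cub
  have h : ∀ i : Fin 3, (X i ^ 3 : MvPolynomial (Fin 3) ℂ).IsHomogeneous 3 := fun i =>
    (isHomogeneous_X_pow i 3)
  exact ((h 2).sub (h 0)).sub (h 1)

lemma cub_smooth {z : Fin 3 → ℂ} (hz : z ≠ 0) (_h : eval z cub = 0) :
    ∃ i, eval z (pderiv i cub) ≠ 0 := by
  by_contra hc
  push Not at hc
  apply hz
  have h0 := hc 0
  have h1 := hc 1
  have h2 := hc 2
  unfold cub at h0 h1 h2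
  simp [pderiv_X] at h0 h1 h2
  funext i
  fin_cases i
  · exact h0
  · exact h1
  · exact h2

/-- the perturbed cubic -/
def Gam (α β : ℕ) (k : ℕ → κ → ℂ) (l : ℕ → μ → ℂ) (q : Par κ μ) : Set (PS κ × PS μ) :=
  {p | ∃ z ∈ Ecub, IsCoord p.1 (psi α k q.1 q.2.2 z) ∧ IsCoord p.2 (psi β l q.2.1 q.2.2 z)}

theorem gam_elliptic {α β : ℕ} {k : ℕ → κ → ℂ} {l : ℕ → μ → ℂ} {q : Par κ μ} (hε : q.2.2 ≠ 0)
    (h1 : ∀ z ∈ Ecub, psi α k q.1 q.2.2 z ≠ 0 ∧ psi β l q.2.1 q.2.2 z ≠ 0)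
    (h2 : ∀ z ∈ Ecub, ∀ z' ∈ Ecub, PInj α β k l q z z')
    (h3 : ∀ z ∈ Ecub, PImm α β k l q z) : IsEllipticCurve (Gam α β k l q) := by
  refine ⟨cub, α, β, psiP α k q.1 q.2.2, psiP β l q.2.1 q.2.2, cub_hom, fun j => psiP_hom _ _ _ _ _,
    fun j => psiP_hom _ _ _ _ _, fun z hz hc => cub_smooth hz hc, fun z hz hc => ?_,
    fun z z' hz hz' hc hc' r1 r2 => ?_, fun z v hz hc _ r1 r2 => ?_, ?_⟩
  · rw [evalT_psiP, evalT_psiP]
    exact h1 z ((cub_iff hz).1 hc)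
  · simp only [evalT_psiP] at r1 r2
    exact h2 z ((cub_iff hz).1 hc) z' ((cub_iff hz').1 hc') hε r1 r2
  · have hy : ∀ i, HasDerivAt (fun τ : ℂ => (z + τ • v) i) (v i) 0 := by
      intro i
      have := ((hasDerivAt_id (0 : ℂ)).mul_const (v i)).const_add (z i)
      simpa using this
    have e0 : z + (0 : ℂ) • v = z := by rw [zero_smul, add_zero]
    refine h3 z ((cub_iff hz).1 hc) hε v ?_ ?_
    · obtain ⟨c, hc'⟩ := r1
      refine ⟨c, fun i => ?_⟩
      have h := hasDerivAt_eval (psiP α k q.1 q.2.2 i) hy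
      rw [e0, hc' i] at h
      simp only [eval_psiP] at h
      exact h
    · obtain ⟨c, hc'⟩ := r2
      refine ⟨c, fun i => ?_⟩
      have h := hasDerivAt_eval (psiP β l q.2.1 q.2.2 i) hy
      rw [e0, hc' i] at h
      simp only [eval_psiP] at h
      exact h
  · ext p
    simp only [Gam, Set.mem_ofPred_eq, evalT_psiP]
    constructor
    · rintro ⟨z, hz, a, b⟩
      exact ⟨z, hz.1, (cub_iff hz.1).2 hz, a, b⟩
    · rintro ⟨z, hz, hc, a, b⟩
      exact ⟨z, (cub_iff hz).1 hc, a, b⟩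

end Pool.Agent.TH144.AE
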