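import Pool.Agent.TH144.AE.Core5

/-! Elliptic curves through two points near an immersed rational curve. -/

set_option autoImplicit false

open Finset Filter Topology

namespace Pool.Agent.TH144.AE

variable {κ μ : Type}

/-- the coefficients of the product of the form `k` with the linear form `a s + b t` -/
def mulLin (a b : ℂ) (α : ℕ) (k : ℕ → κ → ℂ) : ℕ → κ → ℂ := fun i =>
  a • (if i < α then k i else 0) + b • (if 0 < i ∧ i ≤ α then k (i - 1) else 0)

lemma form_add (α : ℕ) (f g : ℕ → κ → ℂ) (s t : ℂ) :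
    form α (f + g) s t = form α f s t + form α g s t := by
  unfold form
  rw [← sum_add_distrib]
  exact sum_congr rfl fun i _ => by rw [Pi.add_apply, smul_add]

lemma form_smul' (α : ℕ) (f : ℕ → κ → ℂ) (c s t : ℂ) :
    form α (c • f) s t = c • form α f s t := by
  unfold form
  rw [Finset.smul_sum]
  exact sum_congr rfl fun i _ => by rw [Pi.smul_apply, smul_comm]

lemma form_mulLin (a b : ℂ) (α : ℕ) (k : ℕ → κ → ℂ) (s t : ℂ) :
    form α (mulLin a b α k) s t = (a * s + b * t) • formw α k s t := by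
  unfold formw
  rcases Nat.eq_zero_or_pos α with rfl | hα
  · simp [form, mulLin]
  · obtain ⟨n, rfl⟩ : ∃ n, α = n + 1 := ⟨α - 1, by omega⟩
    rw [if_neg (by omega), Nat.add_sub_cancel]
    have e1 : form (n + 1) (fun i => if i < n + 1 then k i else 0) s t = s • form n k s t := by
      unfold form
      rw [sum_range_succ]
      beta_reduce
      rw [if_neg (lt_irrefl _), smul_zero, add_zero, Finset.smul_sum]
      refine sum_congr rfl fun i hi => ?_
      have hi' : i < n + 1 := mem_range.1 hi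
      rw [if_pos hi', smul_smul]
      congr 1
      have : n + 1 - i = (n - i) + 1 := by omega
      rw [this]
      ring
    have e2 : form (n + 1) (fun i => if 0 < i ∧ i ≤ n + 1 then k (i - 1) else 0) s t =
        t • form n k s t := by
      unfold form
      rw [sum_range_succ']
      beta_reduce
      rw [if_neg (by omega : ¬ (0 < 0 ∧ 0 ≤ n + 1)), smul_zero, add_zero, Finset.smul_sum]
      refine sum_congr rfl fun i hi => ?_
      have hi' : i < n + 1 := mem_range.1 hi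
      rw [if_pos ⟨by omega, by omega⟩, smul_smul, Nat.add_sub_cancel]
      congr 1
      have : n + 1 - (i + 1) = n - i := by omega
      rw [this]
      ring
    have e3 : mulLin a b (n + 1) k = a • (fun i => if i < n + 1 then k i else 0) +
        b • fun i => if 0 < i ∧ i ≤ n + 1 then k (i - 1) else 0 := by
      funext i
      simp [mulLin]
    rw [e3, form_add, form_smul', form_smul', e1, e2]
    module

/-- the coefficients of `t ^ α • δ` -/
def sing (α : ℕ) (δ : κ → ℂ) : ℕ → κ → ℂ := fun i => if i = α then δ else 0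

lemma form_sing (α : ℕ) (δ : κ → ℂ) (s t : ℂ) : form α (sing α δ) s t = t ^ α • δ := by
  unfold form sing
  rw [sum_eq_single α]
  · simp
  · intro b _ hb
    rw [if_neg hb, smul_zero]
  · intro h
    simp at h

lemma psi_pert (α : ℕ) (k f : ℕ → κ → ℂ) (δ : κ → ℂ) (a b ε : ℂ) (z : Fin 3 → ℂ) :
    psi α k (f + (ε • mulLin a b α k + sing α δ)) ε z = form α f (z 0) (z 1) + z 1 ^ α • δ +
      (ε * (a * z 0 + b * z 1 - z 2)) • formw α k (z 0) (z 1) := by
  unfold psi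
  rw [form_add, form_add, form_smul', form_mulLin, form_sing]
  module

/-- the perturbed parameters -/
def pert (α β : ℕ) (f : ℕ → κ → ℂ) (g : ℕ → μ → ℂ) (k : ℕ → κ → ℂ) (l : ℕ → μ → ℂ) (a b : ℂ)
    (r : ℂ × (κ → ℂ) × (μ → ℂ)) : Par κ μ :=
  (f + (r.1 • mulLin a b α k + sing α r.2.1), g + (r.1 • mulLin a b β l + sing β r.2.2), r.1)

lemma continuous_sing (α : ℕ) : Continuous fun δ : κ → ℂ => sing α δ := by
  refine continuous_pi fun i => ?_
  unfold sing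
  split_ifs
  · exact continuous_id
  · exact continuous_const

lemma continuous_pert (α β : ℕ) (f : ℕ → κ → ℂ) (g : ℕ → μ → ℂ) (k : ℕ → κ → ℂ) (l : ℕ → μ → ℂ)
    (a b : ℂ) : Continuous (pert α β f g k l a b) := by
  unfold pert
  refine Continuous.prodMk (continuous_const.add ((continuous_fst.smul continuous_const).add
    ((continuous_sing α).comp (continuous_fst.comp continuous_snd))))
    (Continuous.prodMk (continuous_const.add ((continuous_fst.smul continuous_const).add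
    ((continuous_sing β).comp (continuous_snd.comp continuous_snd)))) continuous_fst)

lemma pert_zero (α β : ℕ) (f : ℕ → κ → ℂ) (g : ℕ → μ → ℂ) (k : ℕ → κ → ℂ) (l : ℕ → μ → ℂ)
    (a b : ℂ) : pert α β f g k l a b 0 = (f, g, 0) := by
  unfold pert
  have h : ∀ (κ : Type) (α : ℕ), sing α (0 : κ → ℂ) = 0 := by
    intro κ α
    funext i
    unfold sing
    split_ifs <;> rfl
  simp only [Prod.fst_zero, Prod.snd_zero, zero_smul, h, add_zero]

/-- Data of an embedded rational curve with a transversal direction, in an open set. -/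
structure Data (α β : ℕ) (f : ℕ → κ → ℂ) (g : ℕ → μ → ℂ) (k : ℕ → κ → ℂ) (l : ℕ → μ → ℂ)
    (U : Set (PS κ × PS μ)) : Prop where
  hF : ∀ s t : ℂ, s ≠ 0 ∨ t ≠ 0 → form α f s t ≠ 0
  hG : ∀ s t : ℂ, s ≠ 0 ∨ t ≠ 0 → form β g s t ≠ 0
  hinj : ∀ s t s' t' : ℂ, s ≠ 0 ∨ t ≠ 0 → s' ≠ 0 ∨ t' ≠ 0 →
      (∃ c : ℂ, form α f s' t' = c • form α f s t) →
      (∃ c : ℂ, form β g s' t' = c • form β g s t) → s * t' = s' * t
  hT : Trans α β f g k l
  hT' : Trans α β (rev α f) (rev β g) (rev (α - 1) k) (rev (β - 1) l)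
  hU : IsOpenSet U
  hmem : ∀ p : PS κ × PS μ, ∀ s t : ℂ, s ≠ 0 ∨ t ≠ 0 → IsCoord p.1 (form α f s t) →
    IsCoord p.2 (form β g s t) → p ∈ U

variable [Finite κ] [Finite μ]

/-- All small perturbations give elliptic curves in `U`. -/
lemma Data.eventually {α β : ℕ} {f : ℕ → κ → ℂ} {g : ℕ → μ → ℂ} {k : ℕ → κ → ℂ} {l : ℕ → μ → ℂ}
    {U : Set (PS κ × PS μ)} (D : Data α β f g k l U) :
    ∀ᶠ q : Par κ μ in 𝓝 (f, g, 0), q.2.2 ≠ 0 →
      IsEllipticCurve (Gam α β k l q) ∧ Gam α β k l q ⊆ U ∧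
      ∀ z ∈ Ecub, psi α k q.1 q.2.2 z ≠ 0 ∧ psi β l q.2.1 q.2.2 z ≠ 0 := by
  have h := core (O := {p : (κ → ℂ) × (μ → ℂ) | ∃ x ∈ U, IsCoord x.1 p.1 ∧ IsCoord x.2 p.2})
    D.hF D.hG D.hinj D.hT D.hT' D.hU (by
      rintro p ⟨x, hx, h1, h2⟩ a b ha hb
      exact ⟨x, hx, h1.smul ha, h2.smul hb⟩) (by
      intro s t hst
      refine ⟨(Projectivization.mk ℂ _ (D.hF s t hst), Projectivization.mk ℂ _ (D.hG s t hst)),
        D.hmem _ s t hst (isCoord_mk _) (isCoord_mk _), isCoord_mk _, isCoord_mk _⟩)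
  filter_upwards [h] with q hq hε
  obtain ⟨h1, h2, h3⟩ := hq
  refine ⟨gam_elliptic hε (fun z hz => (h1 z hz).2) h2 h3, ?_, fun z hz => (h1 z hz).2⟩
  rintro p ⟨z, hz, c1, c2⟩
  obtain ⟨x, hx, d1, d2⟩ := (h1 z hz).1
  have e1 : p.1 = x.1 := c1.eq d1
  have e2 : p.2 = x.2 := c2.eq d2
  have e : p = x := Prod.ext e1 e2
  rw [e]
  exact hx

lemma Data.pert_eventually {α β : ℕ} {f : ℕ → κ → ℂ} {g : ℕ → μ → ℂ} {k : ℕ → κ → ℂ}
    {l : ℕ → μ → ℂ} {U : Set (PS κ × PS μ)} (D : Data α β f g k l U) (a b : ℂ) :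
    ∀ᶠ δ : (κ → ℂ) × (μ → ℂ) in 𝓝 0, ∃ ε : ℂ, ε ≠ 0 ∧
      IsEllipticCurve (Gam α β k l (pert α β f g k l a b (ε, δ))) ∧
      Gam α β k l (pert α β f g k l a b (ε, δ)) ⊆ U ∧
      ∀ z ∈ Ecub, psi α k (pert α β f g k l a b (ε, δ)).1 ε z ≠ 0 ∧
        psi β l (pert α β f g k l a b (ε, δ)).2.1 ε z ≠ 0 := by
  have h0 : Tendsto (pert α β f g k l a b) (𝓝 0) (𝓝 (f, g, 0)) := by
    have := (continuous_pert α β f g k l a b).tendsto 0
    rwa [pert_zero] at this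
  have h1 := h0.eventually D.eventually
  have h2 : (𝓝 (0 : ℂ × (κ → ℂ) × (μ → ℂ))) = 𝓝 (0 : ℂ) ×ˢ 𝓝 (0 : (κ → ℂ) × (μ → ℂ)) :=
    nhds_prod_eq
  rw [h2, eventually_prod_iff] at h1
  obtain ⟨pa, ha, pb, hb, h3⟩ := h1
  filter_upwards [hb] with δ hδ
  have h4 : ∃ᶠ ε : ℂ in 𝓝 0, ε ≠ 0 := by
    have : (𝓝[≠] (0 : ℂ)).NeBot := inferInstance
    exact (frequently_iff_neBot).2 this
  obtain ⟨ε, hε, hpa⟩ := (h4.and_eventually ha).exists
  obtain ⟨e1, e2, e3⟩ := h3 hpa hδ hε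
  exact ⟨ε, hε, e1, e2, e3⟩

lemma mem_ecub_101 : (![1, 0, 1] : Fin 3 → ℂ) ∈ Ecub :=
  ⟨fun h => one_ne_zero (congrFun h 0), by simp⟩

lemma mem_ecub_011 : (![0, 1, 1] : Fin 3 → ℂ) ∈ Ecub :=
  ⟨fun h => one_ne_zero (congrFun h 1), by simp⟩

/-- Two points of the rational curve lie on an elliptic curve in `U`. -/
theorem Data.same {α β : ℕ} {f : ℕ → κ → ℂ} {g : ℕ → μ → ℂ} {k : ℕ → κ → ℂ} {l : ℕ → μ → ℂ}
    {U : Set (PS κ × PS μ)} (D : Data α β f g k l U) {t0 t1 : ℂ} (ht : t1 ≠ 0)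
    {p p' : PS κ × PS μ} (h1 : IsCoord p.1 (form α f 1 0)) (h2 : IsCoord p.2 (form β g 1 0))
    (h1' : IsCoord p'.1 (form α f t0 t1)) (h2' : IsCoord p'.2 (form β g t0 t1)) :
    ∃ Γ : Set (PS κ × PS μ), IsEllipticCurve Γ ∧ Γ ⊆ U ∧ p ∈ Γ ∧ p' ∈ Γ := by
  obtain ⟨w, hw⟩ := IsAlgClosed.exists_pow_nat_eq (t0 ^ 3 + t1 ^ 3) (n := 3) (by norm_num)
  obtain ⟨ε, hε, e1, e2, e3⟩ := (D.pert_eventually 1 ((w - t0) / t1)).self_of_nhds
  have hz : (![t0, t1, w] : Fin 3 → ℂ) ∈ Ecub :=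
    ⟨fun h => ht (congrFun h 1), by simpa using hw⟩
  refine ⟨_, e1, e2, ⟨![1, 0, 1], mem_ecub_101, ?_⟩, ⟨![t0, t1, w], hz, ?_⟩⟩
  · have a1 : psi α k (pert α β f g k l 1 ((w - t0) / t1) (ε, 0)).1 ε ![1, 0, 1] =
        form α f 1 0 := by
      unfold pert
      rw [psi_pert]
      simp
    have a2 : psi β l (pert α β f g k l 1 ((w - t0) / t1) (ε, 0)).2.1 ε ![1, 0, 1] =
        form β g 1 0 := by
      unfold pert
      rw [psi_pert]
      simp
    change IsCoord p.1 (psi α k (pert α β f g k l 1 ((w - t0) / t1) (ε, 0)).1 ε _) ∧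
      IsCoord p.2 (psi β l (pert α β f g k l 1 ((w - t0) / t1) (ε, 0)).2.1 ε _)
    rw [a1, a2]
    exact ⟨h1, h2⟩
  · have e : (1 : ℂ) * t0 + (w - t0) / t1 * t1 - w = 0 := by
      field_simp
      ring
    have a1 : psi α k (pert α β f g k l 1 ((w - t0) / t1) (ε, 0)).1 ε ![t0, t1, w] =
        form α f t0 t1 := by
      unfold pert
      rw [psi_pert]
      simp only [Matrix.cons_val_zero, Matrix.cons_val_one, Matrix.cons_val]
      rw [e]
      simp
    have a2 : psi β l (pert α β f g k l 1 ((w - t0) / t1) (ε, 0)).2.1 ε ![t0, t1, w] =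
        form β g t0 t1 := by
      unfold pert
      rw [psi_pert]
      simp only [Matrix.cons_val_zero, Matrix.cons_val_one, Matrix.cons_val]
      rw [e]
      simp
    change IsCoord p'.1 (psi α k (pert α β f g k l 1 ((w - t0) / t1) (ε, 0)).1 ε _) ∧
      IsCoord p'.2 (psi β l (pert α β f g k l 1 ((w - t0) / t1) (ε, 0)).2.1 ε _)
    rw [a1, a2]
    exact ⟨h1', h2'⟩

/-- A point of the rational curve and a point near it lie on an elliptic curve in `U`. -/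
theorem Data.near {α β : ℕ} {f : ℕ → κ → ℂ} {g : ℕ → μ → ℂ} {k : ℕ → κ → ℂ} {l : ℕ → μ → ℂ}
    {U : Set (PS κ × PS μ)} (D : Data α β f g k l U) {p : PS κ × PS μ}
    (h1 : IsCoord p.1 (form α f 1 0)) (h2 : IsCoord p.2 (form β g 1 0)) :
    ∀ᶠ δ : (κ → ℂ) × (μ → ℂ) in 𝓝 0, (α = 0 → δ.1 = 0) → (β = 0 → δ.2 = 0) →
      ∀ p' : PS κ × PS μ, IsCoord p'.1 (form α f 0 1 + δ.1) → IsCoord p'.2 (form β g 0 1 + δ.2) →
      ∃ Γ : Set (PS κ × PS μ), IsEllipticCurve Γ ∧ Γ ⊆ U ∧ p ∈ Γ ∧ p' ∈ Γ := by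
  filter_upwards [D.pert_eventually 1 1] with δ hδ hα hβ p' h1' h2'
  obtain ⟨ε, hε, e1, e2, e3⟩ := hδ
  have key : ∀ (κ : Type) (α : ℕ) (δ : κ → ℂ), (α = 0 → δ = 0) → (0 : ℂ) ^ α • δ = 0 := by
    intro κ α δ h
    rcases Nat.eq_zero_or_pos α with h0 | h0
    · rw [h h0, smul_zero]
    · rw [zero_pow h0.ne', zero_smul]
  refine ⟨_, e1, e2, ⟨![1, 0, 1], mem_ecub_101, ?_⟩, ⟨![0, 1, 1], mem_ecub_011, ?_⟩⟩
  · have a1 : psi α k (pert α β f g k l 1 1 (ε, δ)).1 ε ![1, 0, 1] = form α f 1 0 := by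
      unfold pert
      rw [psi_pert]
      simp only [Matrix.cons_val_zero, Matrix.cons_val_one, Matrix.cons_val]
      rw [key _ _ _ hα]
      simp
    have a2 : psi β l (pert α β f g k l 1 1 (ε, δ)).2.1 ε ![1, 0, 1] = form β g 1 0 := by
      unfold pert
      rw [psi_pert]
      simp only [Matrix.cons_val_zero, Matrix.cons_val_one, Matrix.cons_val]
      rw [key _ _ _ hβ]
      simp
    change IsCoord p.1 (psi α k (pert α β f g k l 1 1 (ε, δ)).1 ε _) ∧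
      IsCoord p.2 (psi β l (pert α β f g k l 1 1 (ε, δ)).2.1 ε _)
    rw [a1, a2]
    exact ⟨h1, h2⟩
  · have a1 : psi α k (pert α β f g k l 1 1 (ε, δ)).1 ε ![0, 1, 1] = form α f 0 1 + δ.1 := by
      unfold pert
      rw [psi_pert]
      simp
    have a2 : psi β l (pert α β f g k l 1 1 (ε, δ)).2.1 ε ![0, 1, 1] = form β g 0 1 + δ.2 := by
      unfold pert
      rw [psi_pert]
      simp
    change IsCoord p'.1 (psi α k (pert α β f g k l 1 1 (ε, δ)).1 ε _) ∧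
      IsCoord p'.2 (psi β l (pert α β f g k l 1 1 (ε, δ)).2.1 ε _)
    rw [a1, a2]
    exact ⟨h1', h2'⟩

end Pool.Agent.TH144.AE
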