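import Pool.Agent.TH144.AE.Conic

/-! Embeddings are immersions along curves. -/

set_option autoImplicit false

open Finset Filter Topology MvPolynomial

namespace Pool.Agent.TH144.AE

variable {κ μ : Type}

lemma BiHom.eval_smul {G : MvPolynomial (κ ⊕ μ) ℂ} {d e : ℕ} (hG : BiHom G d e) (a b : ℂ)
    (u : κ → ℂ) (v : μ → ℂ) :
    eval (Sum.elim (a • u) (b • v)) G = a ^ d * b ^ e * eval (Sum.elim u v) G := by
  classical
  rw [MvPolynomial.eval_eq, MvPolynomial.eval_eq, mul_sum]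
  refine sum_congr rfl fun m hm => ?_
  have hw := hG (mem_support_iff.1 hm)
  rw [Finsupp.weight_apply, Finsupp.sum] at hw
  have h1 := congrArg Prod.fst hw
  have h2 := congrArg Prod.snd hw
  rw [Prod.fst_sum] at h1
  rw [Prod.snd_sum] at h2
  simp only at h1 h2
  rw [← h1, ← h2, ← prod_pow_eq_pow_sum, ← prod_pow_eq_pow_sum]
  have h3 : (∏ i ∈ m.support, (Sum.elim (a • u) (b • v) i) ^ m i) =
      (∏ i ∈ m.support, a ^ (m i • (Sum.elim (fun _ : κ => ((1 : ℕ), (0 : ℕ)))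
        (fun _ : μ => ((0 : ℕ), (1 : ℕ))) i)).1) *
      (∏ i ∈ m.support, b ^ (m i • (Sum.elim (fun _ : κ => ((1 : ℕ), (0 : ℕ)))
        (fun _ : μ => ((0 : ℕ), (1 : ℕ))) i)).2) *
      ∏ i ∈ m.support, (Sum.elim u v i) ^ m i := by
    rw [← prod_mul_distrib, ← prod_mul_distrib]
    refine prod_congr rfl fun i _ => ?_
    rcases i with i | i
    · simp [mul_pow]
    · simp [mul_pow]
  rw [h3]
  ring

variable [Fintype κ] [Fintype μ]

lemma BiHom.euler {G : MvPolynomial (κ ⊕ μ) ℂ} {d e : ℕ} (hG : BiHom G d e) (a b : ℂ)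
    (u : κ → ℂ) (v : μ → ℂ) :
    ∑ i, (Sum.elim (a • u) (b • v) : κ ⊕ μ → ℂ) i * eval (Sum.elim u v) (pderiv i G) =
      (d * a + e * b) * eval (Sum.elim u v) G := by
  have h1 : HasDerivAt (fun z : ℂ => eval (Sum.elim ((1 + z * a) • u) ((1 + z * b) • v)) G)
      (∑ i, (Sum.elim (a • u) (b • v) : κ ⊕ μ → ℂ) i *
        eval (Sum.elim ((1 + 0 * a) • u) ((1 + 0 * b) • v)) (pderiv i G)) 0 := by
    refine hasDerivAt_eval G (y := fun z => Sum.elim ((1 + z * a) • u) ((1 + z * b) • v)) ?_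
    intro i
    rcases i with i | i
    · simp only [Sum.elim_inl, Pi.smul_apply, smul_eq_mul]
      have := (((hasDerivAt_id (0 : ℂ)).mul_const a).const_add 1).mul_const (u i)
      simpa using this
    · simp only [Sum.elim_inr, Pi.smul_apply, smul_eq_mul]
      have := (((hasDerivAt_id (0 : ℂ)).mul_const b).const_add 1).mul_const (v i)
      simpa using this
  have h2 : HasDerivAt (fun z : ℂ => eval (Sum.elim ((1 + z * a) • u) ((1 + z * b) • v)) G)
      ((d * a + e * b) * eval (Sum.elim u v) G) 0 := by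
    have e1 : (fun z : ℂ => eval (Sum.elim ((1 + z * a) • u) ((1 + z * b) • v)) G) =
        fun z => (1 + z * a) ^ d * (1 + z * b) ^ e * eval (Sum.elim u v) G := by
      funext z
      exact hG.eval_smul _ _ _ _
    rw [e1]
    have h3 := (((hasDerivAt_id (0 : ℂ)).mul_const a).const_add 1).fun_pow d
    have h4 := (((hasDerivAt_id (0 : ℂ)).mul_const b).const_add 1).fun_pow e
    have h5 := (h3.mul h4).mul_const (eval (Sum.elim u v) G)
    exact h5.congr_deriv (by simp)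
  have h3 := h1.unique h2
  simpa using h3

/-- Embeddings are immersions along curves. -/
theorem curve_imm {ι : Type} {X : Set (PS ι)} {j : PS ι → PS κ × PS μ} (hj : IsEmbedding X j)
    {x : ℂ → PS ι} {y : ℂ → ι → ℂ} {y' : ι → ℂ} {F : ℂ → κ → ℂ} {F' : κ → ℂ}
    {G : ℂ → μ → ℂ} {G' : μ → ℂ} {τ : ℂ} (hx : ∀ᶠ t in 𝓝 τ, x t ∈ X)
    (hy : ∀ᶠ t in 𝓝 τ, IsCoord (x t) (y t)) (hy' : ∀ i, HasDerivAt (fun t => y t i) (y' i) τ)
    (hF : ∀ᶠ t in 𝓝 τ, IsCoord (j (x t)).1 (F t)) (hF' : ∀ i, HasDerivAt (fun t => F t i) (F' i) τ)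
    (hG : ∀ᶠ t in 𝓝 τ, IsCoord (j (x t)).2 (G t)) (hG' : ∀ i, HasDerivAt (fun t => G t i) (G' i) τ)
    {a b : ℂ} (ha : F' = a • F τ) (hb : G' = b • G τ) : ∃ c : ℂ, y' = c • y τ := by
  obtain ⟨d, e, H, hH, h0, h1⟩ := hj.2.2.2 (x τ) hx.self_of_nhds
  have hP : ∀ i : κ ⊕ μ, HasDerivAt (fun t => (Sum.elim (F t) (G t) : κ ⊕ μ → ℂ) i)
      ((Sum.elim F' G' : κ ⊕ μ → ℂ) i) τ := by
    intro i
    rcases i with i | i
    · exact hF' i
    · exact hG' i
  have hder : ∀ i, HasDerivAt (fun t => eval (Sum.elim (F t) (G t)) (H i))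
      ((d * a + e * b) * eval (Sum.elim (F τ) (G τ)) (H i)) τ := by
    intro i
    have h2 := hasDerivAt_eval (H i) hP
    rw [ha, hb, (hH i).euler] at h2
    exact h2
  have hne := h0 _ _ hF.self_of_nhds hG.self_of_nhds
  obtain ⟨i0, hi0⟩ : ∃ i, eval (Sum.elim (F τ) (G τ)) (H i) ≠ 0 := by
    by_contra hc
    push Not at hc
    exact hne (funext hc)
  have hev : ∀ᶠ t in 𝓝 τ, evalT (Sum.elim (F t) (G t)) H ≠ 0 := by
    have h3 := (hder i0).continuousAt.eventually_ne hi0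
    filter_upwards [h3] with t ht h4
    exact ht (congrFun h4 i0)
  have hpar : ∀ᶠ t in 𝓝 τ, ∀ i k, eval (Sum.elim (F t) (G t)) (H i) * y t k =
      eval (Sum.elim (F t) (G t)) (H k) * y t i := by
    filter_upwards [hx, hy, hF, hG, hev] with t h3 h4 h5 h6 h7 i k
    obtain ⟨c, _, hc⟩ := h4.exists_smul (h1 _ h3 _ _ h5 h6 h7)
    have e1 : ∀ i, eval (Sum.elim (F t) (G t)) (H i) = c * y t i := fun i => congrFun hc i
    rw [e1, e1]
    ring
  obtain ⟨c, hc0, hc⟩ := hy.self_of_nhds.exists_smul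
    (h1 _ hx.self_of_nhds _ _ hF.self_of_nhds hG.self_of_nhds hne)
  have e1 : ∀ i, eval (Sum.elim (F τ) (G τ)) (H i) = c * y τ i := fun i => congrFun hc i
  have hrel : ∀ i k, y τ i * y' k = y τ k * y' i := by
    intro i k
    have h3 := (hder i).mul (hy' k)
    have h4 := (hder k).mul (hy' i)
    have h5 : (fun t => eval (Sum.elim (F t) (G t)) (H i) * y t k) =ᶠ[𝓝 τ]
        fun t => eval (Sum.elim (F t) (G t)) (H k) * y t i := by
      filter_upwards [hpar] with t ht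
      exact ht i k
    have h6 := h3.unique (h4.congr_of_eventuallyEq h5)
    rw [e1, e1] at h6
    have h7 : c * (y τ i * y' k) = c * (y τ k * y' i) := by
      linear_combination h6
    exact mul_left_cancel₀ hc0 h7
  have hi1 : y τ i0 ≠ 0 := by
    intro h3
    apply hi0
    rw [e1, h3, mul_zero]
  refine ⟨y' i0 / y τ i0, ?_⟩
  funext k
  rw [Pi.smul_apply, smul_eq_mul]
  field_simp
  linear_combination hrel i0 k

end Pool.Agent.TH144.AE
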