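import Mathlib

/-!
# Definitions

Projective varieties, embeddings into products of two projective spaces, chains of elliptic curves
in Euclidean neighbourhoods, the Kobayashi pseudodistance.
-/

set_option autoImplicit false

open MvPolynomial Metric
open scoped LinearAlgebra.Projectivization

namespace Pool.Agent.TH144.AE

/-- The complex projective space with homogeneous coordinates indexed by `ι`. -/
abbrev PS (ι : Type) : Type := ℙ ℂ (ι → ℂ)

/-- `v` is a vector of homogeneous coordinates of the point `x`. -/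
def IsCoord {ι : Type} (x : PS ι) (v : ι → ℂ) : Prop :=
  ∃ h : v ≠ 0, x = Projectivization.mk ℂ v h

/-- The value of the tuple `G` of polynomials at the vector `v`. -/
noncomputable def evalT {ι κ : Type} (v : ι → ℂ) (G : κ → MvPolynomial ι ℂ) : κ → ℂ :=
  fun k => eval v (G k)

/-- `X` is a projective variety: it is the zero locus of a set of homogeneous polynomials, and it
is irreducible (if a product of two homogeneous polynomials vanishes on `X`, so does one of
them). -/
structure IsVariety {ι : Type} (X : Set (PS ι)) : Prop where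
  nonempty : X.Nonempty
  closed : ∃ S : Set (MvPolynomial ι ℂ), (∀ G ∈ S, ∃ d, G.IsHomogeneous d) ∧
    ∀ x v, IsCoord x v → (x ∈ X ↔ ∀ G ∈ S, eval v G = 0)
  irreducible : ∀ (G H : MvPolynomial ι ℂ) (d e : ℕ), G.IsHomogeneous d → H.IsHomogeneous e →
    (∀ x ∈ X, ∀ v, IsCoord x v → eval v G * eval v H = 0) →
    (∀ x ∈ X, ∀ v, IsCoord x v → eval v G = 0) ∨ (∀ x ∈ X, ∀ v, IsCoord x v → eval v H = 0)

/-- `f` is a morphism from `X` to a projective space: near every point of `X` it is given by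
homogeneous polynomials of the same degree without common zero. -/
def IsMorphism {ι κ : Type} (X : Set (PS ι)) (f : PS ι → PS κ) : Prop :=
  ∀ x ∈ X, ∃ (d : ℕ) (G : κ → MvPolynomial ι ℂ), (∀ k, (G k).IsHomogeneous d) ∧
    (∀ v, IsCoord x v → evalT v G ≠ 0) ∧
    ∀ y ∈ X, ∀ v, IsCoord y v → evalT v G ≠ 0 → IsCoord (f y) (evalT v G)

/-- The polynomial `G` is homogeneous of degree `d` in the first and `e` in the second group of
variables. -/
def BiHom {κ μ : Type} (G : MvPolynomial (κ ⊕ μ) ℂ) (d e : ℕ) : Prop :=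
  IsWeightedHomogeneous
    (Sum.elim (fun _ => ((1 : ℕ), (0 : ℕ))) fun _ => ((0 : ℕ), (1 : ℕ))) G (d, e)

/-- `j` is an embedding of `X` into the product of two projective spaces (an isomorphism onto its
image): both components are morphisms, and the inverse map from `j(X)` to `X` is a morphism, i.e.
near every point of `j(X)` it is given by bihomogeneous polynomials of the same bidegree. -/
def IsEmbedding {ι κ μ : Type} (X : Set (PS ι)) (j : PS ι → PS κ × PS μ) : Prop :=
  IsMorphism X (fun x => (j x).1) ∧ IsMorphism X (fun x => (j x).2) ∧ Set.InjOn j X ∧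
  ∀ x ∈ X, ∃ (d e : ℕ) (H : ι → MvPolynomial (κ ⊕ μ) ℂ), (∀ i, BiHom (H i) d e) ∧
    (∀ u v, IsCoord (j x).1 u → IsCoord (j x).2 v → evalT (Sum.elim u v) H ≠ 0) ∧
    ∀ y ∈ X, ∀ u v, IsCoord (j y).1 u → IsCoord (j y).2 v → evalT (Sum.elim u v) H ≠ 0 →
      IsCoord y (evalT (Sum.elim u v) H)

/-- `U` is a Euclidean-open subset of the product of two projective spaces. -/
def IsOpenSet {κ μ : Type} (U : Set (PS κ × PS μ)) : Prop :=
  IsOpen {p : (κ → ℂ) × (μ → ℂ) | ∃ x ∈ U, IsCoord x.1 p.1 ∧ IsCoord x.2 p.2}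

/-- `Γ` is an elliptic curve in the product of two projective spaces: the image of a smooth plane
cubic `F = 0` under an embedding, given by homogeneous polynomials `G` of degree `d` and `H` of
degree `e` without common zeros on the cubic; the map is injective, and it is an immersion: a
tangent vector `v` of the cone over the cubic at `z` that is mapped to a multiple of `G z` and to a
multiple of `H z` is a multiple of `z`. -/
def IsEllipticCurve {κ μ : Type} (Γ : Set (PS κ × PS μ)) : Prop :=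
  ∃ (F : MvPolynomial (Fin 3) ℂ) (d e : ℕ) (G : κ → MvPolynomial (Fin 3) ℂ)
    (H : μ → MvPolynomial (Fin 3) ℂ),
    F.IsHomogeneous 3 ∧ (∀ k, (G k).IsHomogeneous d) ∧ (∀ k, (H k).IsHomogeneous e) ∧
    (∀ z : Fin 3 → ℂ, z ≠ 0 → eval z F = 0 → ∃ i, eval z (pderiv i F) ≠ 0) ∧
    (∀ z : Fin 3 → ℂ, z ≠ 0 → eval z F = 0 → evalT z G ≠ 0 ∧ evalT z H ≠ 0) ∧
    (∀ z z' : Fin 3 → ℂ, z ≠ 0 → z' ≠ 0 → eval z F = 0 → eval z' F = 0 →
      (∃ c : ℂ, evalT z' G = c • evalT z G) → (∃ c : ℂ, evalT z' H = c • evalT z H) →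
      ∃ c : ℂ, z' = c • z) ∧
    (∀ z v : Fin 3 → ℂ, z ≠ 0 → eval z F = 0 → ∑ i, v i * eval z (pderiv i F) = 0 →
      (∃ c : ℂ, ∀ k, ∑ i, v i * eval z (pderiv i (G k)) = c * eval z (G k)) →
      (∃ c : ℂ, ∀ k, ∑ i, v i * eval z (pderiv i (H k)) = c * eval z (H k)) →
      ∃ c : ℂ, v = c • z) ∧
    Γ = {p | ∃ z : Fin 3 → ℂ, z ≠ 0 ∧ eval z F = 0 ∧ IsCoord p.1 (evalT z G) ∧
      IsCoord p.2 (evalT z H)}

/-- The points `p` and `q` lie on a chain of elliptic curves in `U`. -/
def ChainIn {κ μ : Type} (U : Set (PS κ × PS μ)) (p q : PS κ × PS μ) : Prop :=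
  ∃ (n : ℕ) (Γ : Fin (n + 1) → Set (PS κ × PS μ)), (∀ i, IsEllipticCurve (Γ i) ∧ Γ i ⊆ U) ∧
    p ∈ Γ 0 ∧ q ∈ Γ (Fin.last n) ∧ ∀ i : Fin n, (Γ i.castSucc ∩ Γ i.succ).Nonempty

/-- `Y` is naively approximately elliptically connected in the product of two projective spaces. -/
def NaivelyConnected {κ μ : Type} (Y : Set (PS κ × PS μ)) : Prop :=
  ∀ U : Set (PS κ × PS μ), IsOpenSet U → Y ⊆ U → ∀ p ∈ Y, ∀ q ∈ Y, ChainIn U p q

/-- `X` is strongly approximately elliptically connected: its image under every embedding into a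
product of two projective spaces is naively approximately elliptically connected. -/
def StronglyConnected {ι : Type} (X : Set (PS ι)) : Prop :=
  ∀ (a b : ℕ) (j : PS ι → PS (Fin (a + 1)) × PS (Fin (b + 1))), IsEmbedding X j →
    NaivelyConnected (j '' X)

/-! ### The Kobayashi pseudodistance -/

section kobayashi

variable {ι : Type} [Fintype ι]

/-- `f` is a holomorphic map from the open set `U` to the projective space: near every point of
`U` it is given by holomorphic homogeneous coordinates. -/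
def HolomorphicOn (U : Set ℂ) (f : ℂ → PS ι) : Prop :=
  ∀ z ∈ U, ∃ (V : Set ℂ) (v : ℂ → ι → ℂ), IsOpen V ∧ z ∈ V ∧ DifferentiableOn ℂ v V ∧
    ∀ w ∈ V, IsCoord (f w) (v w)

/-- The Poincaré distance of two points of the unit disc (curvature `-1`). -/
noncomputable def poincareDist (s t : ℂ) : ℝ :=
  Real.log ((1 + ‖s - t‖ / ‖1 - (starRingEnd ℂ) s * t‖) /
    (1 - ‖s - t‖ / ‖1 - (starRingEnd ℂ) s * t‖))

/-- `c` is the total Poincaré length of a chain of holomorphic discs in `X` from `p` to `q`. -/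
def IsChainLength (X : Set (PS ι)) (p q : PS ι) (c : ℝ) : Prop :=
  ∃ (k : ℕ) (r : Fin (k + 1) → PS ι) (f : Fin k → ℂ → PS ι) (s t : Fin k → ℂ),
    r 0 = p ∧ r (Fin.last k) = q ∧
    (∀ i : Fin k, HolomorphicOn (ball 0 1) (f i) ∧ (∀ z ∈ ball (0 : ℂ) 1, f i z ∈ X) ∧
      s i ∈ ball (0 : ℂ) 1 ∧ t i ∈ ball (0 : ℂ) 1 ∧
      f i (s i) = r i.castSucc ∧ f i (t i) = r i.succ) ∧
    c = ∑ i : Fin k, poincareDist (s i) (t i)

/-- The Kobayashi pseudodistance of `X`: the infimum of the lengths of the chains of holomorphic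
discs in `X` that join the two points. -/
noncomputable def kobayashi (X : Set (PS ι)) (p q : PS ι) : ENNReal :=
  ⨅ (c : ℝ) (_ : IsChainLength X p q c), ENNReal.ofReal c

end kobayashi

end Pool.Agent.TH144.AE
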