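import Pool.Agent.TH144.AE.Var

/-! Binary forms with vector coefficients. -/

set_option autoImplicit false

open Finset

namespace Pool.Agent.TH144.AE

variable {κ μ : Type}

/-- the binary form of degree `α` with the coefficients `f 0, ..., f α` -/
def form (α : ℕ) (f : ℕ → κ → ℂ) (s t : ℂ) : κ → ℂ :=
  ∑ i ∈ range (α + 1), (s ^ (α - i) * t ^ i) • f i

/-- the derivative of `t ↦ form α f 1 t` -/
def dform (α : ℕ) (f : ℕ → κ → ℂ) (t : ℂ) : κ → ℂ :=
  ∑ i ∈ range (α + 1), ((i : ℂ) * t ^ (i - 1)) • f i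

/-- the form of degree `α - 1`, zero if `α = 0` -/
def formw (α : ℕ) (k : ℕ → κ → ℂ) (s t : ℂ) : κ → ℂ :=
  if α = 0 then 0 else form (α - 1) k s t

/-- the coefficients of the form with the two variables exchanged -/
def rev (α : ℕ) (f : ℕ → κ → ℂ) : ℕ → κ → ℂ := fun i => f (α - i)

lemma form_swap (α : ℕ) (f : ℕ → κ → ℂ) (s t : ℂ) : form α f s t = form α (rev α f) t s := by
  unfold form rev
  rw [← sum_range_reflect]
  refine sum_congr rfl fun i hi => ?_
  have hi' : i ≤ α := by simpa [Nat.lt_succ_iff] using hi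
  have h1 : α + 1 - 1 - i = α - i := by omega
  have h2 : α - (α - i) = i := by omega
  rw [h1, h2, mul_comm]

lemma formw_swap (α : ℕ) (k : ℕ → κ → ℂ) (s t : ℂ) :
    formw α k s t = formw α (rev (α - 1) k) t s := by
  unfold formw
  split_ifs
  · rfl
  · exact form_swap _ _ _ _

/-- The pair of forms `(f, g)` of degrees `α, β` is an immersion in the chart `s = 1`. -/
def Imm (α β : ℕ) (f : ℕ → κ → ℂ) (g : ℕ → μ → ℂ) : Prop :=
  ∀ t : ℂ, LinearIndependent ℂ (![(dform α f t, dform β g t), (form α f 1 t, 0),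
    (0, form β g 1 t)] : Fin 3 → (κ → ℂ) × (μ → ℂ))

/-- The direction `(k, l)` is transversal to the immersion `(f, g)` in the chart `s = 1`. -/
def Trans (α β : ℕ) (f : ℕ → κ → ℂ) (g : ℕ → μ → ℂ) (k : ℕ → κ → ℂ) (l : ℕ → μ → ℂ) : Prop :=
  ∀ t : ℂ, LinearIndependent ℂ (![(dform α f t, dform β g t), (formw α k 1 t, formw β l 1 t),
    (form α f 1 t, 0), (0, form β g 1 t)] : Fin 4 → (κ → ℂ) × (μ → ℂ))

end Pool.Agent.TH144.AE
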