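import Pool.Agent.TH144.AE.Curve

/-! Embeddings restrict to immersed forms on the conics. -/

set_option autoImplicit false

open Finset Filter Topology MvPolynomial

namespace Pool.Agent.TH144.AE

variable {κ μ : Type}

lemma Psi_line (b c : Fin 3 → ℂ) (u v : Fin 2 → ℂ) (t : ℂ) (i : Fin 4) :
    Psi b c (u + t • v) i = Psi b c u i + t * Psi b c v i := by
  fin_cases i <;> simp [Psi] <;> ring

lemma Psi_lin (b c : Fin 3 → ℂ) (u v : Fin 2 → ℂ) (a e : ℂ) :
    Psi b c (a • u + e • v) = a • Psi b c u + e • Psi b c v := by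
  funext i
  fin_cases i <;> simp [Psi] <;> ring

lemma Phi_line_deriv (b c : Fin 3 → ℂ) (u v : Fin 2 → ℂ) (τ : ℂ) (i : Idx) :
    HasDerivAt (fun t => Phi b c (u + t • v) i)
      ((Sum.elim (fun p => Psi b c v p.1 * Psi b c (u + τ • v) p.2 +
        Psi b c (u + τ • v) p.1 * Psi b c v p.2)
        (fun p => lam b * lam c * b p.1 * c p.2.1 * (v p.2.2.1 * (u + τ • v) p.2.2.2 +
          (u + τ • v) p.2.2.1 * v p.2.2.2)) : Idx → ℂ) i) τ := by
  have hP : ∀ i, HasDerivAt (fun t => Psi b c (u + t • v) i) (Psi b c v i) τ := by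
    intro i
    simp only [Psi_line]
    have := ((hasDerivAt_id τ).mul_const (Psi b c v i)).const_add (Psi b c u i)
    simpa using this
  have hs : ∀ i, HasDerivAt (fun t => (u + t • v) i) (v i) τ := by
    intro i
    simp only [Pi.add_apply, Pi.smul_apply, smul_eq_mul]
    have := ((hasDerivAt_id τ).mul_const (v i)).const_add (u i)
    simpa using this
  rcases i with p | p
  · exact (hP p.1).mul (hP p.2)
  · have h1 := ((hs p.2.2.1).mul (hs p.2.2.2)).const_mul (lam b * lam c * b p.1 * c p.2.1)
    have e : (fun t => Phi b c (u + t • v) (Sum.inr p)) = fun t =>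
        lam b * lam c * b p.1 * c p.2.1 * (((fun t => (u + t • v) p.2.2.1) *
          fun t => (u + t • v) p.2.2.2 : ℂ → ℂ) t) := by
      funext t
      simp only [Phi, Sum.elim_inr, Pi.mul_apply]
      ring
    rw [e]
    exact h1

/-- The derivative is not parallel to the point. -/
lemma Phi_line_imm {b c : Fin 3 → ℂ} (hb : b ∈ Cone) (hc : c ∈ Cone) {u v : Fin 2 → ℂ}
    (huv : ∀ a e : ℂ, a • u + e • v = 0 → a = 0 ∧ e = 0) (τ : ℂ) {y' : Idx → ℂ}
    (h : ∀ p : Fin 4 × Fin 4, y' (Sum.inl p) = Psi b c v p.1 * Psi b c (u + τ • v) p.2 +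
        Psi b c (u + τ • v) p.1 * Psi b c v p.2) :
    ¬ ∃ a : ℂ, y' = a • Phi b c (u + τ • v) := by
  rintro ⟨a, ha⟩
  have hne : u + τ • v ≠ 0 := by
    intro h0
    have := huv 1 τ (by rw [one_smul, h0])
    exact one_ne_zero this.1
  have hP := Psi_ne_zero (cone_pair hb) (cone_pair hc) hne
  obtain ⟨i, hi⟩ : ∃ i, Psi b c (u + τ • v) i ≠ 0 := by
    by_contra hc
    push Not at hc
    exact hP (funext hc)
  have h1 : ∀ j k, Psi b c v j * Psi b c (u + τ • v) k + Psi b c (u + τ • v) j * Psi b c v k =
      a * (Psi b c (u + τ • v) j * Psi b c (u + τ • v) k) := by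
    intro j k
    have h2 := congrFun ha (Sum.inl (j, k))
    rw [h] at h2
    exact h2
  have h2 : Psi b c v i = a / 2 * Psi b c (u + τ • v) i := by
    have h3 := h1 i i
    have h4 : Psi b c (u + τ • v) i * (Psi b c v i - a / 2 * Psi b c (u + τ • v) i) = 0 := by
      linear_combination h3 / 2
    rcases mul_eq_zero.1 h4 with h | h
    · exact absurd h hi
    · exact sub_eq_zero.1 h
  have h3 : ∀ k, Psi b c v k = a / 2 * Psi b c (u + τ • v) k := by
    intro k
    have h4 := h1 i k
    rw [h2] at h4
    have h5 : Psi b c (u + τ • v) i * (Psi b c v k - a / 2 * Psi b c (u + τ • v) k) = 0 := by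
      linear_combination h4
    rcases mul_eq_zero.1 h5 with h | h
    · exact absurd h hi
    · exact sub_eq_zero.1 h
  have h4 : Psi b c ((-(a / 2)) • (u + τ • v) + (1 : ℂ) • v) = 0 := by
    rw [Psi_lin]
    funext k
    simp only [Pi.add_apply, Pi.smul_apply, smul_eq_mul, Pi.zero_apply]
    rw [h3 k]
    ring
  have h5 : (-(a / 2)) • (u + τ • v) + (1 : ℂ) • v = 0 := by
    by_contra hne'
    exact Psi_ne_zero (cone_pair hb) (cone_pair hc) hne' h4
  have h6 : (-(a / 2)) • u + (-(a / 2) * τ + 1) • v = 0 := by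
    rw [← h5]
    module
  have h7 := huv _ _ h6
  have h8 : (1 : ℂ) = 0 := by
    have e1 := h7.1
    have e2 := h7.2
    rw [e1, zero_mul, zero_add] at e2
    exact e2
  exact one_ne_zero h8

variable [Fintype κ] [Fintype μ]

/-- The forms of an embedding on a conic are an immersion. -/
lemma imm_conic {j : PS Idx → PS κ × PS μ} (hj : IsEmbedding XX j) {b c : Fin 3 → ℂ}
    (hb : b ∈ Cone) (hc : c ∈ Cone) {α β : ℕ} {f : ℕ → κ → ℂ} {g : ℕ → μ → ℂ} {u v : Fin 2 → ℂ}
    (huv : ∀ a e : ℂ, a • u + e • v = 0 → a = 0 ∧ e = 0)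
    (hf : ∀ t x, IsCoord x (Phi b c (u + t • v)) → IsCoord (j x).1 (form α f 1 t))
    (hg : ∀ t x, IsCoord x (Phi b c (u + t • v)) → IsCoord (j x).2 (form β g 1 t)) :
    Imm α β f g := by
  have hne : ∀ t : ℂ, u + t • v ≠ 0 := by
    intro t h0
    have := huv 1 t (by rw [one_smul, h0])
    exact one_ne_zero this.1
  intro t
  rw [Fintype.linearIndependent_iff]
  intro w hw
  rw [Fin.sum_univ_three] at hw
  have hw1 : w 0 • dform α f t + w 1 • form α f 1 t = 0 := by
    have := congrArg Prod.fst hw
    simpa using this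
  have hw2 : w 0 • dform β g t + w 2 • form β g 1 t = 0 := by
    have := congrArg Prod.snd hw
    simpa using this
  have hF := (hf t _ (pt_coord hb hc (hne t))).ne_zero
  have hG := (hg t _ (pt_coord hb hc (hne t))).ne_zero
  have h0 : w 0 = 0 := by
    by_contra h0
    have e1 : dform α f t = (-(w 1 / w 0)) • form α f 1 t := by
      have : w 0 • (dform α f t + (w 1 / w 0) • form α f 1 t) = 0 := by
        rw [smul_add, smul_smul, mul_div_cancel₀ _ h0]
        exact hw1
      rcases smul_eq_zero.1 this with h | h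
      · exact absurd h h0
      · rw [neg_smul]
        exact eq_neg_of_add_eq_zero_left h
    have e2 : dform β g t = (-(w 2 / w 0)) • form β g 1 t := by
      have : w 0 • (dform β g t + (w 2 / w 0) • form β g 1 t) = 0 := by
        rw [smul_add, smul_smul, mul_div_cancel₀ _ h0]
        exact hw2
      rcases smul_eq_zero.1 this with h | h
      · exact absurd h h0
      · rw [neg_smul]
        exact eq_neg_of_add_eq_zero_left h
    refine Phi_line_imm hb hc huv t (y' := _) (fun p => rfl) (curve_imm hj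
      (x := fun t => pt hb hc (hne t)) (y := fun t => Phi b c (u + t • v)) (τ := t)
      (F := fun t => form α f 1 t) (G := fun t => form β g 1 t)
      (Eventually.of_forall fun t => pt_mem hb hc (hne t))
      (Eventually.of_forall fun t => pt_coord hb hc (hne t)) (Phi_line_deriv b c u v t)
      (Eventually.of_forall fun t => hf t _ (pt_coord hb hc (hne t))) (F' := dform α f t) ?_
      (Eventually.of_forall fun t => hg t _ (pt_coord hb hc (hne t))) (G' := dform β g t) ?_ e1 e2)
    · intro i
      simpa using hasDerivAt_form α f (hasDerivAt_id t) i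
    · intro i
      simpa using hasDerivAt_form β g (hasDerivAt_id t) i
  rw [h0, zero_smul, zero_add] at hw1 hw2
  have h1 : w 1 = 0 := by
    rcases smul_eq_zero.1 hw1 with h | h
    · exact h
    · exact absurd h hF
  have h2 : w 2 = 0 := by
    rcases smul_eq_zero.1 hw2 with h | h
    · exact h
    · exact absurd h hG
  intro i
  fin_cases i
  · exact h0
  · exact h1
  · exact h2

end Pool.Agent.TH144.AE
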