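import Pool.Agent.TH144.AE.Conn2
import Pool.Agent.TH263.J1084
import Pool.Agent.TH959.J1082
import Pool.Agent.TH159.J847
import Pool.Agent.TH500.J848

/-! The variety is strongly approximately elliptically connected and its Kobayashi pseudodistance is
not trivial. -/

set_option autoImplicit false

open MvPolynomial

namespace Pool.Agent.TH144.AE

/-- a point of the quartic -/
lemma mem_cone : (![1, 1, 0] : Fin 3 → ℂ) ∈ Cone :=
  ⟨fun h => one_ne_zero (congrFun h 0), by simp⟩

theorem XX_variety : IsVariety XX :=
  ⟨⟨_, pt_mem mem_cone mem_cone vec10_ne⟩, Pool.Agent.TH159.J847.XX_closed,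
    Pool.Agent.TH500.J848.XX_irreducible⟩

theorem XX_strong : StronglyConnected XX := fun _ _ _ hj =>
  naively hj (Pool.Agent.TH263.J1084.dim_bound hj)

/-- Every subset of a projective space is embedded in a product (a point times the space). -/
theorem embedding_self {ι : Type} (X : Set (PS ι)) (o : PS (Fin 1)) :
    IsEmbedding X fun x => (o, x) := by
  refine ⟨?_, ?_, ?_, ?_⟩
  · intro x _
    refine ⟨0, fun k => C (o.rep k), fun k => isHomogeneous_C _ _, ?_, ?_⟩
    · intro v _ h
      apply o.rep_nonzero
      funext k
      have := congrFun h k
      simpa [evalT] using this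
    · intro y _ v _ _
      have e : evalT v (fun k => C (o.rep k)) = o.rep := by
        funext k
        simp [evalT]
      rw [e]
      exact isCoord_rep o
  · intro x _
    refine ⟨1, fun k => MvPolynomial.X k, fun k => isHomogeneous_X _ _, ?_, ?_⟩
    · intro v hv h
      apply hv.ne_zero
      funext k
      have := congrFun h k
      simpa [evalT] using this
    · intro y _ v hv _
      have e : evalT v (fun k => (MvPolynomial.X k : MvPolynomial ι ℂ)) = v := by
        funext k
        simp [evalT]
      rw [e]
      exact hv
  · intro x _ y _ h
    exact congrArg Prod.snd h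
  · intro x _
    refine ⟨0, 1, fun i => MvPolynomial.X (Sum.inr i), ?_, ?_, ?_⟩
    · intro i
      exact isWeightedHomogeneous_X ℂ _ (Sum.inr i)
    · intro u v _ hv h
      apply hv.ne_zero
      funext k
      have := congrFun h k
      simpa [evalT] using this
    · intro y _ u v _ hv _
      have e : evalT (Sum.elim u v)
          (fun i => (MvPolynomial.X (Sum.inr i) : MvPolynomial (Fin 1 ⊕ ι) ℂ)) = v := by
        funext k
        simp [evalT]
      rw [e]
      exact hv

end Pool.Agent.TH144.AE
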