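import Pool.Agent.TH144.AE.Defs

/-! The variety: two copies of a Fermat quartic times the projective line, pinched. -/

set_option autoImplicit false

open MvPolynomial Metric
open scoped LinearAlgebra.Projectivization

namespace Pool.Agent.TH144.AE

/-- the linear form vanishing at the total flex `(1 : 1 : 0)` -/
def lam (b : Fin 3 → ℂ) : ℂ := b 0 - b 1

/-- the cone over the quartic -/
def Cone : Set (Fin 3 → ℂ) := {b | b ≠ 0 ∧ b 0 ^ 4 = b 1 ^ 4 + b 2 ^ 4}

/-- the coefficients of the product of three binary linear forms -/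
def Psi (b c : Fin 3 → ℂ) (s : Fin 2 → ℂ) : Fin 4 → ℂ :=
  ![b 0 * c 0 * s 0, b 0 * c 0 * s 1 + b 0 * c 1 * s 0 + b 1 * c 0 * s 0,
    b 0 * c 1 * s 1 + b 1 * c 0 * s 1 + b 1 * c 1 * s 0, b 1 * c 1 * s 1]

/-- the index set of the coordinates -/
abbrev Idx : Type := (Fin 4 × Fin 4) ⊕ (Fin 3 × Fin 3 × Fin 2 × Fin 2)

/-- the parametrization of the cone over the variety -/
def Phi (b c : Fin 3 → ℂ) (s : Fin 2 → ℂ) : Idx → ℂ :=
  Sum.elim (fun p => Psi b c s p.1 * Psi b c s p.2)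
    fun p => lam b * lam c * b p.1 * c p.2.1 * s p.2.2.1 * s p.2.2.2

/-- the variety -/
def XX : Set (PS Idx) := {x | ∃ b ∈ Cone, ∃ c ∈ Cone, ∃ s : Fin 2 → ℂ, s ≠ 0 ∧
  IsCoord x (Phi b c s)}

lemma IsCoord.ne_zero {ι : Type} {x : PS ι} {v : ι → ℂ} (h : IsCoord x v) : v ≠ 0 := h.1

lemma isCoord_mk {ι : Type} {v : ι → ℂ} (h : v ≠ 0) : IsCoord (Projectivization.mk ℂ v h) v :=
  ⟨h, rfl⟩

lemma isCoord_rep {ι : Type} (x : PS ι) : IsCoord x x.rep := ⟨x.rep_nonzero, x.mk_rep.symm⟩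

/-- two coordinate vectors of the same point are proportional -/
lemma IsCoord.exists_smul {ι : Type} {x : PS ι} {v w : ι → ℂ} (hv : IsCoord x v)
    (hw : IsCoord x w) : ∃ a : ℂ, a ≠ 0 ∧ w = a • v := by
  obtain ⟨h1, rfl⟩ := hv
  obtain ⟨h2, e⟩ := hw
  rw [Projectivization.mk_eq_mk_iff'] at e
  obtain ⟨a, ha⟩ := e
  have ha0 : a ≠ 0 := by
    rintro rfl
    exact h1 (by rw [← ha, zero_smul])
  exact ⟨a⁻¹, inv_ne_zero ha0, by rw [← ha, smul_smul, inv_mul_cancel₀ ha0, one_smul]⟩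

lemma IsCoord.smul {ι : Type} {x : PS ι} {v : ι → ℂ} (hv : IsCoord x v) {a : ℂ} (ha : a ≠ 0) :
    IsCoord x (a • v) := by
  obtain ⟨h1, rfl⟩ := hv
  refine ⟨smul_ne_zero ha h1, ?_⟩
  rw [Projectivization.mk_eq_mk_iff']
  exact ⟨a⁻¹, by rw [smul_smul, inv_mul_cancel₀ ha, one_smul]⟩

lemma IsCoord.eq {ι : Type} {x y : PS ι} {v : ι → ℂ} (hx : IsCoord x v) (hy : IsCoord y v) :
    x = y := by
  obtain ⟨h1, rfl⟩ := hx
  obtain ⟨h2, rfl⟩ := hy
  rfl

lemma IsCoord.eq_of_smul {ι : Type} {x y : PS ι} {v w : ι → ℂ} (hx : IsCoord x v)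
    (hy : IsCoord y w) {a : ℂ} (h : w = a • v) : x = y := by
  have ha : a ≠ 0 := by
    rintro rfl
    exact hy.1 (by rw [h, zero_smul])
  exact (hx.smul ha).eq (h ▸ hy)

lemma cone_pair {b : Fin 3 → ℂ} (hb : b ∈ Cone) : b 0 ≠ 0 ∨ b 1 ≠ 0 := by
  by_contra h
  push Not at h
  obtain ⟨h0, h1⟩ := h
  apply hb.1
  have h2 := hb.2
  rw [h0, h1] at h2
  have h3 : b 2 = 0 := by
    have : b 2 ^ 4 = 0 := by linear_combination -h2
    exact pow_eq_zero_iff (by norm_num) |>.1 this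
  funext i
  fin_cases i
  · exact h0
  · exact h1
  · exact h3

lemma Psi_ne_zero {b c : Fin 3 → ℂ} {s : Fin 2 → ℂ} (hb : b 0 ≠ 0 ∨ b 1 ≠ 0)
    (hc : c 0 ≠ 0 ∨ c 1 ≠ 0) (hs : s ≠ 0) : Psi b c s ≠ 0 := by
  intro h
  have h0 : b 0 * c 0 * s 0 = 0 := congrFun h 0
  have h1 : b 0 * c 0 * s 1 + b 0 * c 1 * s 0 + b 1 * c 0 * s 0 = 0 := congrFun h 1
  have h2 : b 0 * c 1 * s 1 + b 1 * c 0 * s 1 + b 1 * c 1 * s 0 = 0 := congrFun h 2
  have h3 : b 1 * c 1 * s 1 = 0 := congrFun h 3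
  have hs' : s 0 ≠ 0 ∨ s 1 ≠ 0 := by
    by_contra h'
    push Not at h'
    apply hs
    funext i
    fin_cases i
    · exact h'.1
    · exact h'.2
  -- use polynomial evaluation
  have key : ∀ x y : ℂ, (b 0 * x + b 1 * y) * (c 0 * x + c 1 * y) * (s 0 * x + s 1 * y) = 0 := by
    intro x y
    linear_combination x ^ 3 * h0 + x ^ 2 * y * h1 + x * y ^ 2 * h2 + y ^ 3 * h3
  by_cases hb0 : b 0 = 0
  · have hb1 : b 1 ≠ 0 := hb.resolve_left (not_not.2 hb0)
    by_cases hc0 : c 0 = 0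
    · have hc1 : c 1 ≠ 0 := hc.resolve_left (not_not.2 hc0)
      rw [hb0, hc0] at h2
      have e1 : s 0 = 0 := by
        have : b 1 * c 1 * s 0 = 0 := by linear_combination h2
        rcases mul_eq_zero.1 this with h | h
        · exact absurd h (mul_ne_zero hb1 hc1)
        · exact h
      have e2 : s 1 = 0 := by
        rcases mul_eq_zero.1 h3 with h | h
        · exact absurd h (mul_ne_zero hb1 hc1)
        · exact h
      tauto
    · rw [hb0] at h1 h2
      have e1 : s 0 = 0 := by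
        have : b 1 * c 0 * s 0 = 0 := by linear_combination h1
        rcases mul_eq_zero.1 this with h | h
        · exact absurd h (mul_ne_zero hb1 hc0)
        · exact h
      rw [e1] at h2
      have e2 : s 1 = 0 := by
        have : b 1 * c 0 * s 1 = 0 := by linear_combination h2
        rcases mul_eq_zero.1 this with h | h
        · exact absurd h (mul_ne_zero hb1 hc0)
        · exact h
      tauto
  · by_cases hc0 : c 0 = 0
    · have hc1 : c 1 ≠ 0 := hc.resolve_left (not_not.2 hc0)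
      rw [hc0] at h1 h2
      have e1 : s 0 = 0 := by
        have : b 0 * c 1 * s 0 = 0 := by linear_combination h1
        rcases mul_eq_zero.1 this with h | h
        · exact absurd h (mul_ne_zero hb0 hc1)
        · exact h
      rw [e1] at h2
      have e2 : s 1 = 0 := by
        have : b 0 * c 1 * s 1 = 0 := by linear_combination h2
        rcases mul_eq_zero.1 this with h | h
        · exact absurd h (mul_ne_zero hb0 hc1)
        · exact h
      tauto
    · have e1 : s 0 = 0 := by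
        rcases mul_eq_zero.1 h0 with h | h
        · exact absurd h (mul_ne_zero hb0 hc0)
        · exact h
      rw [e1] at h1
      have e2 : s 1 = 0 := by
        have : b 0 * c 0 * s 1 = 0 := by linear_combination h1
        rcases mul_eq_zero.1 this with h | h
        · exact absurd h (mul_ne_zero hb0 hc0)
        · exact h
      tauto

lemma Phi_ne_zero' {b c : Fin 3 → ℂ} {s : Fin 2 → ℂ} (h : Psi b c s ≠ 0) : Phi b c s ≠ 0 := by
  intro h'
  apply h
  funext i
  have := congrFun h' (Sum.inl (i, i))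
  simpa [Phi] using this

lemma Phi_ne_zero {b c : Fin 3 → ℂ} {s : Fin 2 → ℂ} (hb : b ∈ Cone) (hc : c ∈ Cone)
    (hs : s ≠ 0) : Phi b c s ≠ 0 :=
  Phi_ne_zero' (Psi_ne_zero (cone_pair hb) (cone_pair hc) hs)

end Pool.Agent.TH144.AE
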